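import Pool.Agent.Helper5.KBnG.Words

/-! The weighted sum over one layer. -/

open Finset

namespace KBnG

variable {d : ℕ} {M S : Finset (Fin d)} {L : ℕ}

theorem lvl_add_vec_main (hMS : Disjoint M S) (x : Vtx d) {f : Dir d} (hf : f.1 ∈ M) :
    lvl S (x + vec f) = lvl S x := by
  apply lvl_congr
  intro i hi
  apply add_vec_apply_of_ne
  rintro rfl
  exact Finset.disjoint_left.1 hMS hf hi

/-- The weighted sum over the words of a layer. -/
noncomputable def T (M : Finset (Fin d)) (E : Finset (Sym2 (Vtx d))) (A : ℝ) (φ : Vtx d → ℝ)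
    (j : ℕ) (F : Finset (Fin d)) (u : Vtx d) : ℝ :=
  ∑ w ∈ mainWords M j F, A ^ cnt E u w * φ (endpt u w)

theorem T_zero (E : Finset (Sym2 (Vtx d))) (A : ℝ) (φ : Vtx d → ℝ)
    (F : Finset (Fin d)) (u : Vtx d) : T M E A φ 0 F u = φ u := by
  simp [T, mainWords, cnt, endpt]

theorem T_succ (E : Finset (Sym2 (Vtx d))) (A : ℝ) (φ : Vtx d → ℝ) (j : ℕ)
    (F : Finset (Fin d)) (u : Vtx d) : T M E A φ (j + 1) F u
      = ∑ f ∈ (M \ F) ×ˢ (univ : Finset Bool),
          A ^ hit E u f * T M E A φ j (insert f.1 F) (u + vec f) := by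
  unfold T
  rw [sum_mainWords_succ]
  refine Finset.sum_congr rfl fun f _ => ?_
  rw [Finset.mul_sum]
  refine Finset.sum_congr rfl fun w _ => ?_
  simp only [cnt, endpt, pow_add]
  ring

theorem T_nonneg (E : Finset (Sym2 (Vtx d))) {A : ℝ} (hA : 1 ≤ A) {φ : Vtx d → ℝ}
    (hφ : ∀ u, 0 ≤ φ u) (j : ℕ) (F : Finset (Fin d)) (u : Vtx d) : 0 ≤ T M E A φ j F u :=
  Finset.sum_nonneg fun w _ => mul_nonneg (by positivity) (hφ _)

open Classical in
theorem layer_bound (hMS : Disjoint M S) {E : Finset (Sym2 (Vtx d))} {V : Finset (Vtx d)}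
    (env : Env S L E V) {A : ℝ} (hA : 1 ≤ A) (hM : 0 < M.card) (φ : Vtx d → ℝ)
    (ε B C : ℕ → ℝ) (hε0 : ∀ j, 0 ≤ ε j) (hB0 : ∀ j, 0 ≤ B j) (hC0 : ∀ j, 0 ≤ C j)
    (h0 : ∀ u, φ u ≤ ε 0 + B 0 * (if u ∈ V then 1 else 0)) (h0' : ∀ u, φ u ≤ C 0)
    (J : ℕ) (hε : ∀ j < J, ε j + (L + 1) / (2 * M.card) * B j ≤ ε (j + 1))
    (hB : ∀ j < J, 2 * (A / (2 * M.card)) * C j ≤ B (j + 1))
    (hC : ∀ j < J, A / (2 * M.card) * C j + ε j + (L + 1) / (2 * M.card) * B j ≤ C (j + 1))
    (j : ℕ) (hj : j ≤ J) (F : Finset (Fin d)) (u : Vtx d) :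
    T M E A φ j F u ≤ (2 * M.card) ^ j * (ε j + B j * (if u ∈ V then 1 else 0)) ∧
    ((∃ g ∈ dirsAt E u, g.1 ∈ F) → T M E A φ j F u ≤ (2 * M.card) ^ j * C j) := by
  induction j generalizing F u with
  | zero =>
    rw [T_zero]
    simp only [pow_zero, one_mul]
    exact ⟨h0 u, fun _ => h0' u⟩
  | succ j ih =>
    replace ih := ih (by omega)
    have hjJ : j < J := by omega
    rw [T_succ]
    set D : ℝ := 2 * (M.card : ℝ) with hD
    have hDpos : 0 < D := by
      have : (0:ℝ) < M.card := by exact_mod_cast hM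
      positivity
    set P := (M \ F) ×ˢ (univ : Finset Bool) with hP
    have hterm : ∀ f ∈ P, A ^ hit E u f * T M E A φ j (insert f.1 F) (u + vec f)
        ≤ (if f ∈ dirsAt E u then A * (D ^ j * C j) else 0)
          + D ^ j * (ε j + B j * (if u + vec f ∈ V then 1 else 0)) := by
      intro f hf
      have hnn : 0 ≤ D ^ j * (ε j + B j * (if u + vec f ∈ V then 1 else 0)) := by
        apply mul_nonneg (by positivity)
        apply add_nonneg (hε0 j)
        apply mul_nonneg (hB0 j)
        split_ifs <;> norm_num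
      by_cases hfE : f ∈ dirsAt E u
      · rw [if_pos hfE]
        have hin := mem_dirsAt.1 hfE
        rw [hit_of_mem hin, pow_one]
        have h1 := (ih (insert f.1 F) (u + vec f)).2 ⟨opp f, by
          rw [mem_dirsAt, vec_opp, add_neg_cancel_right, Sym2.eq_swap]; exact hin, by
          simp [opp]⟩
        have h2 : A * T M E A φ j (insert f.1 F) (u + vec f) ≤ A * (D ^ j * C j) :=
          mul_le_mul_of_nonneg_left h1 (by linarith)
        linarith
      · rw [if_neg hfE, hit_of_notMem (fun h => hfE (mem_dirsAt.2 h)), pow_zero, one_mul, zero_add]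
        exact (ih (insert f.1 F) (u + vec f)).1
    have hPcard : (P.card : ℝ) ≤ D := by
      have : P.card ≤ M.card * 2 := by
        rw [hP, Finset.card_product]
        simp only [Finset.card_univ, Fintype.card_bool]
        exact Nat.mul_le_mul_right _ (Finset.card_le_card Finset.sdiff_subset)
      have h2 : (P.card : ℝ) ≤ (M.card * 2 : ℕ) := by exact_mod_cast this
      push_cast at h2
      linarith
    have hVcard : ((P.filter fun f => u + vec f ∈ V).card : ℝ) ≤ L + 1 := by
      have : (P.filter fun f => u + vec f ∈ V).card ≤ L + 1 := by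
        refine le_trans ?_ (env.lay (lvl S u))
        apply Finset.card_le_card_of_injOn (fun f => u + vec f)
        · intro f hf
          simp only [Finset.coe_filter, Set.mem_ofPred_eq, hP, Finset.mem_product,
            Finset.mem_sdiff, Finset.mem_univ, and_true] at hf
          simp only [Finset.coe_filter, Set.mem_ofPred_eq]
          exact ⟨hf.2, lvl_add_vec_main hMS u hf.1.1⟩
        · intro f _ g _ h
          exact vec_injective (add_left_cancel h)
      exact_mod_cast this
    have hsum2 : ∑ f ∈ P, D ^ j * (ε j + B j * (if u + vec f ∈ V then 1 else 0))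
        ≤ D ^ (j + 1) * (ε j + (L + 1) / D * B j) := by
      rw [← Finset.mul_sum, Finset.sum_add_distrib, ← Finset.mul_sum, Finset.sum_const,
        Finset.sum_boole, nsmul_eq_mul]
      calc D ^ j * ((P.card : ℝ) * ε j + B j * ((P.filter fun f => u + vec f ∈ V).card : ℝ))
          ≤ D ^ j * (D * ε j + B j * (L + 1)) := by
            apply mul_le_mul_of_nonneg_left _ (by positivity)
            apply add_le_add
            · exact mul_le_mul_of_nonneg_right hPcard (hε0 j)
            · exact mul_le_mul_of_nonneg_left hVcard (hB0 j)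
        _ = _ := by rw [pow_succ]; field_simp
    have hsum1 : ∀ m : ℕ, (P.filter fun f => f ∈ dirsAt E u).card ≤ m →
        ∑ f ∈ P, (if f ∈ dirsAt E u then A * (D ^ j * C j) else 0)
          ≤ D ^ (j + 1) * (m * (A / D) * C j) := by
      intro m hm
      rw [← Finset.sum_filter, Finset.sum_const, nsmul_eq_mul]
      have hm' : ((P.filter fun f => f ∈ dirsAt E u).card : ℝ) ≤ m := by exact_mod_cast hm
      calc ((P.filter fun f => f ∈ dirsAt E u).card : ℝ) * (A * (D ^ j * C j))
          ≤ m * (A * (D ^ j * C j)) := by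
            apply mul_le_mul_of_nonneg_right hm'
            have := hC0 j
            positivity
        _ = _ := by rw [pow_succ]; field_simp
    have htot : ∀ m : ℕ, (P.filter fun f => f ∈ dirsAt E u).card ≤ m →
        ∑ f ∈ P, A ^ hit E u f * T M E A φ j (insert f.1 F) (u + vec f)
          ≤ D ^ (j + 1) * (m * (A / D) * C j + (ε j + (L + 1) / D * B j)) := by
      intro m hm
      calc _ ≤ ∑ f ∈ P, ((if f ∈ dirsAt E u then A * (D ^ j * C j) else 0)
            + D ^ j * (ε j + B j * (if u + vec f ∈ V then 1 else 0))) := Finset.sum_le_sum hterm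
        _ = _ + _ := Finset.sum_add_distrib
        _ ≤ _ := by
          have := hsum1 m hm
          rw [mul_add]
          linarith
    constructor
    · by_cases huV : u ∈ V
      · rw [if_pos huV]
        refine (htot 2 ?_).trans ?_
        · refine (Finset.card_le_card ?_).trans (env.deg u)
          intro f hf; exact (Finset.mem_filter.1 hf).2
        · apply mul_le_mul_of_nonneg_left _ (by positivity)
          have h1 := hε j hjJ
          have h2 := hB j hjJ
          push_cast
          linarith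
      · rw [if_neg huV]
        refine (htot 0 ?_).trans ?_
        · rw [Nat.le_zero, Finset.card_eq_zero, Finset.filter_eq_empty_iff]
          intro f _ hf
          exact huV (env.touch u f (mem_dirsAt.1 hf))
        · apply mul_le_mul_of_nonneg_left _ (by positivity)
          have h1 := hε j hjJ
          push_cast
          linarith
    · rintro ⟨g, hg, hgF⟩
      refine (htot 1 ?_).trans ?_
      · have h1 : (P.filter fun f => f ∈ dirsAt E u) ⊆ (dirsAt E u).erase g := by
          intro f hf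
          rw [Finset.mem_filter] at hf
          rw [Finset.mem_erase]
          refine ⟨?_, hf.2⟩
          rintro rfl
          rw [hP, Finset.mem_product, Finset.mem_sdiff] at hf
          exact hf.1.1.2 hgF
        have h2 := Finset.card_le_card h1
        rw [Finset.card_erase_of_mem hg] at h2
        have h3 := env.deg u
        omega
      · apply mul_le_mul_of_nonneg_left _ (by positivity)
        have h1 := hC j hjJ
        push_cast
        linarith

theorem card_mainWords (j : ℕ) (F : Finset (Fin d)) (hF : F.card + j ≤ L) :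
    (2 * (M.card - L)) ^ j ≤ (mainWords M j F).card := by
  induction j generalizing F with
  | zero => simp [mainWords]
  | succ j ih =>
    have h1 : (mainWords M (j + 1) F).card
        = ∑ f ∈ (M \ F) ×ˢ (univ : Finset Bool), (mainWords M j (insert f.1 F)).card := by
      simp only [Finset.card_eq_sum_ones]
      rw [sum_mainWords_succ]
    rw [h1]
    calc (2 * (M.card - L)) ^ (j + 1)
        = (2 * (M.card - L)) * (2 * (M.card - L)) ^ j := by rw [pow_succ]; ring
      _ ≤ ((M \ F) ×ˢ (univ : Finset Bool)).card * (2 * (M.card - L)) ^ j := by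
          apply Nat.mul_le_mul_right
          rw [Finset.card_product, Finset.card_univ, Fintype.card_bool]
          have := Finset.le_card_sdiff F M
          omega
      _ ≤ _ := by
          rw [← smul_eq_mul, ← Finset.sum_const]
          apply Finset.sum_le_sum
          intro f _
          apply ih
          have := Finset.card_insert_le f.1 F
          omega

theorem pow_le_card_mainWords (hM : 2 * L ^ 2 ≤ M.card) (hM0 : 0 < M.card) :
    (2 * (M.card : ℝ)) ^ L ≤ 2 * (mainWords M L ∅).card := by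
  have h1 := card_mainWords (M := M) (L := L) L ∅ (by simp)
  have hLM : L ≤ M.card := by nlinarith [Nat.le_mul_self L]
  have h2 : ((2 * (M.card - L)) ^ L : ℝ) ≤ (mainWords M L ∅).card := by
    have : (((2 * (M.card - L)) ^ L : ℕ) : ℝ) ≤ (mainWords M L ∅).card := by exact_mod_cast h1
    push_cast [Nat.cast_sub hLM] at this
    exact this
  have hMp : (0:ℝ) < M.card := by exact_mod_cast hM0
  have hb : 1 + (L:ℝ) * (-(L / M.card)) ≤ (1 + -((L:ℝ) / M.card)) ^ L := by
    apply one_add_mul_le_pow
    have : (L:ℝ) / M.card ≤ 1 := by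
      rw [div_le_one hMp]; exact_mod_cast hLM
    linarith
  have hb2 : (L:ℝ) * (L / M.card) ≤ 1 / 2 := by
    rw [mul_div_assoc', div_le_iff₀ hMp]
    have : (2:ℝ) * L ^ 2 ≤ M.card := by exact_mod_cast hM
    nlinarith
  have hb3 : (1:ℝ) / 2 ≤ (1 + -((L:ℝ) / M.card)) ^ L := by linarith
  have h3 : (2 * ((M.card : ℝ) - L)) ^ L = (2 * (M.card : ℝ)) ^ L * (1 + -((L:ℝ) / M.card)) ^ L := by
    rw [← mul_pow]
    congr 1
    field_simp
    ring
  rw [h3] at h2
  have h4 : (0:ℝ) < (2 * (M.card : ℝ)) ^ L := by positivity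
  nlinarith

/-- Total weight of a layer. -/
theorem layer_total (hMS : Disjoint M S) {E : Finset (Sym2 (Vtx d))} {V : Finset (Vtx d)}
    (env : Env S L E V) {A ρ Cb : ℝ} (hA : 1 ≤ A) (hM : 0 < M.card) (hρ1 : ρ < 1)
    (hρ : A / (2 * M.card) ≤ ρ) (hCb : Cb = 2 / (1 - ρ))
    (hδ : (L + 1) / (2 * M.card) * (2 * Cb) * L ≤ 1) (hML : 2 * L ^ 2 ≤ M.card) (u : Vtx d) :
    T M E A (fun _ => 1) L ∅ u ≤ (4 + 4 * Cb) * (mainWords M L ∅).card := by
  classical
  have hMp : (0:ℝ) < M.card := by exact_mod_cast hM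
  have hρ0 : 0 < ρ := lt_of_lt_of_le (by positivity) hρ
  have hCb1 : Cb * (1 - ρ) = 2 := by
    rw [hCb, div_mul_cancel₀]; linarith
  have hCb0 : 0 < Cb := by rw [hCb]; apply div_pos two_pos; linarith
  set δ : ℝ := (L + 1) / (2 * M.card) with hδd
  have hδ0 : 0 ≤ δ := by positivity
  have key := (layer_bound (M := M) hMS env hA hM (fun _ => 1)
    (fun j => 1 + j * (δ * (2 * Cb))) (fun _ => 2 * Cb) (fun _ => Cb)
    (fun j => by positivity) (fun j => by positivity) (fun j => by positivity)
    (fun u => by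
      have : (0:ℝ) ≤ 2 * Cb * (if u ∈ V then 1 else 0) := by split_ifs <;> simp; linarith
      simpa using this)
    (fun u => by nlinarith) L
    (fun j _ => by push_cast; linarith)
    (fun j _ => by
      calc 2 * (A / (2 * M.card)) * Cb ≤ 2 * ρ * Cb := by gcongr
        _ ≤ 2 * 1 * Cb := by gcongr
        _ = 2 * Cb := by ring)
    (fun j hj => by
      have hj' : (j:ℝ) + 1 ≤ L := by exact_mod_cast hj
      have h1 : ((j:ℝ) + 1) * (δ * (2 * Cb)) ≤ L * (δ * (2 * Cb)) := by gcongr
      have h2 : A / (2 * M.card) * Cb ≤ ρ * Cb := by gcongr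
      have h3 : (L:ℝ) * (δ * (2 * Cb)) ≤ 1 := by linarith
      have h4 : ((j:ℝ) + 1) * (δ * (2 * Cb)) = j * (δ * (2 * Cb)) + δ * (2 * Cb) := by ring
      linarith) L le_rfl ∅ u).1
  have hpow := pow_le_card_mainWords hML hM
  have h3 : (L:ℝ) * (δ * (2 * Cb)) ≤ 1 := by linarith
  calc T M E A (fun _ => 1) L ∅ u ≤ _ := key
    _ ≤ (2 * M.card) ^ L * (2 + 2 * Cb) := by
        apply mul_le_mul_of_nonneg_left _ (by positivity)
        have : (2 * Cb * (if u ∈ V then 1 else 0) : ℝ) ≤ 2 * Cb := by split_ifs <;> simp; linarith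
        linarith
    _ ≤ (2 * (mainWords M L ∅).card) * (2 + 2 * Cb) := by gcongr
    _ = _ := by ring

/-- Weight of the words of a layer ending at a given vertex of the environment. -/
theorem layer_end (hMS : Disjoint M S) {E : Finset (Sym2 (Vtx d))} {V : Finset (Vtx d)}
    (env : Env S L E V) {A ρ y : ℝ} (hA : 1 ≤ A) (hM : 0 < M.card) (hρ1 : ρ < 1)
    (hρ : A / (2 * M.card) ≤ ρ) (hy0 : 0 < y) (hy1 : y ≤ 1)
    (hδ : (L + 1) / (2 * M.card) * 4 * L ≤ (1 - ρ) * y) (hML : 2 * L ^ 2 ≤ M.card)
    (φ : Vtx d → ℝ) (hφ0 : ∀ u, φ u ≤ 1) (hφ : ∀ u, u ∉ V → φ u ≤ 0) (u : Vtx d) :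
    T M E A φ L ∅ u ≤ (4 * ρ ^ L + 6 * y) * (mainWords M L ∅).card := by
  classical
  have hMp : (0:ℝ) < M.card := by exact_mod_cast hM
  have hρ0 : 0 < ρ := lt_of_lt_of_le (by positivity) hρ
  set δ : ℝ := (L + 1) / (2 * M.card) with hδd
  have hδ0 : 0 ≤ δ := by positivity
  have hBle : ∀ j : ℕ, 2 * ρ ^ j + 2 * y ≤ 4 := by
    intro j
    have : ρ ^ j ≤ 1 := pow_le_one₀ hρ0.le hρ1.le
    linarith
  have key := (layer_bound (M := M) hMS env hA hM φ
    (fun j => j * (δ * 4)) (fun j => 2 * ρ ^ j + 2 * y) (fun j => ρ ^ j + y)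
    (fun j => by positivity) (fun j => by positivity) (fun j => by positivity)
    (fun u => by
      by_cases hu : u ∈ V
      · simp only [hu, if_true]
        have := hφ0 u
        push_cast; simp only [pow_zero]; linarith
      · simpa [hu] using hφ u hu)
    (fun u => by have := hφ0 u; simp only [pow_zero]; linarith) L
    (fun j _ => by
      have := mul_le_mul_of_nonneg_left (hBle j) hδ0
      push_cast; linarith)
    (fun j _ => by
      calc 2 * (A / (2 * M.card)) * (ρ ^ j + y) ≤ 2 * ρ * (ρ ^ j + y) := by gcongr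
        _ = 2 * ρ ^ (j + 1) + 2 * (ρ * y) := by rw [pow_succ]; ring
        _ ≤ 2 * ρ ^ (j + 1) + 2 * y := by nlinarith)
    (fun j hj => by
      have hj' : (j:ℝ) + 1 ≤ L := by exact_mod_cast hj
      have h1 : ((j:ℝ) + 1) * (δ * 4) ≤ L * (δ * 4) := by gcongr
      have h2 : A / (2 * M.card) * (ρ ^ j + y) ≤ ρ * (ρ ^ j + y) := by gcongr
      have h3 := mul_le_mul_of_nonneg_left (hBle j) hδ0
      have h4 : ((j:ℝ) + 1) * (δ * 4) = j * (δ * 4) + δ * 4 := by ring
      have h5 : ρ * (ρ ^ j + y) = ρ ^ (j + 1) + ρ * y := by rw [pow_succ]; ring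
      linarith) L le_rfl ∅ u).1
  have hpow := pow_le_card_mainWords hML hM
  calc T M E A φ L ∅ u ≤ _ := key
    _ ≤ (2 * M.card) ^ L * (2 * ρ ^ L + 3 * y) := by
        apply mul_le_mul_of_nonneg_left _ (by positivity)
        have hBnn : 0 ≤ 2 * ρ ^ L + 2 * y := by positivity
        have : ((2 * ρ ^ L + 2 * y) * (if u ∈ V then 1 else 0) : ℝ) ≤ 2 * ρ ^ L + 2 * y := by
          split_ifs <;> simp; linarith
        have h6 : (L:ℝ) * (δ * 4) ≤ y := by nlinarith
        linarith
    _ ≤ (2 * (mainWords M L ∅).card) * (2 * ρ ^ L + 3 * y) := by gcongr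
    _ = _ := by ring

end KBnG
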