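import Pool.Agent.Helper5.KBnG.Walk

/-! The lower bound: no percolation when `k (k - 1) < 2 d`. -/

open MeasureTheory Finset Filter

namespace KBnG

variable {d : ℕ}

theorem dirsAt_singleton_self (x : Vtx d) (f : Dir d) : dirsAt {s(x, x + vec f)} x = {f} := by
  apply Finset.Subset.antisymm
  · have h1 := dirsAt_singleton_card_le s(x, x + vec f) x
    rw [Finset.card_le_one] at h1
    intro g hg
    rw [Finset.mem_singleton]
    exact h1 g hg f (by simp [mem_dirsAt])
  · simp [mem_dirsAt]

theorem dirsAt_singleton_other (x : Vtx d) (f : Dir d) :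
    dirsAt {s(x, x + vec f)} (x + vec f) = {opp f} := by
  have : s(x, x + vec f) = s(x + vec f, (x + vec f) + vec (opp f)) := by
    rw [vec_opp, add_neg_cancel_right, Sym2.eq_swap]
  rw [this]
  exact dirsAt_singleton_self _ _

theorem dirsAt_singleton_of_ne {x y : Vtx d} {f : Dir d} (h1 : y ≠ x) (h2 : y ≠ x + vec f) :
    dirsAt {s(x, x + vec f)} y = ∅ := by
  rw [Finset.eq_empty_iff_forall_notMem]
  intro g hg
  rw [mem_dirsAt, Finset.mem_singleton, Sym2.eq_iff] at hg
  rcases hg with ⟨h, _⟩ | ⟨h, _⟩
  · exact h1 h
  · exact h2 h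

theorem edges_cons_toFinset (x : Vtx d) (f : Dir d) (w : List (Dir d)) :
    (edges x (f :: w)).toFinset = insert s(x, x + vec f) (edges (x + vec f) w).toFinset := by
  simp [edges]

/-- The probability that the edges of a self-avoiding walk are open. -/
theorem law_saw (k : ℕ) (hk : k ≤ 2 * d) (f : Dir d) (w : List (Dir d)) (x : Vtx d)
    (hw : (verts x (f :: w)).Nodup) :
    (law d k hk).real (Open (edges x (f :: w)).toFinset) ≤ q d k 2 ^ w.length := by
  induction w generalizing f x with
  | nil => simp
  | cons g w ih =>
    have hw' : (verts (x + vec f) (g :: w)).Nodup := by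
      simp only [verts, List.nodup_cons] at hw ⊢
      exact hw.2
    have hx : x ∉ verts (x + vec f) (g :: w) := by
      rw [verts, List.nodup_cons] at hw
      exact hw.1
    refine le_trans (le_of_eq ?_) (le_trans (mul_le_mul_of_nonneg_left (ih g (x + vec f) hw')
      (q_nonneg d k 2)) (le_of_eq ?_))
    swap
    · simp only [List.length_cons, pow_succ]; ring
    -- exact recursion
    set z := x + vec f with hz
    set E := (edges z (g :: w)).toFinset with hE
    set V := (verts z (g :: w)).toFinset with hV
    have hxV : x ∉ V := by rw [hV, List.mem_toFinset]; exact hx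
    have hzV : z ∈ V := by rw [hV, List.mem_toFinset]; exact start_mem_verts _ _
    have hEV : ∀ y, y ∉ V → dirsAt E y = ∅ := by
      intro y hy
      exact dirsAt_edges_eq_empty (fun h => hy (List.mem_toFinset.2 h))
    have hins : (edges x (f :: g :: w)).toFinset = insert s(x, z) E := edges_cons_toFinset _ _ _
    have hEV' : ∀ y, y ∉ insert x V → dirsAt (insert s(x, z) E) y = ∅ := by
      intro y hy
      rw [Finset.mem_insert, not_or] at hy
      rw [dirsAt_insert, hEV y hy.2, Finset.union_empty]
      exact dirsAt_singleton_of_ne hy.1 (fun h => hy.2 (h ▸ hzV))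
    rw [hins, law_Open k hk _ _ hEV', law_Open k hk _ _ hEV, Finset.prod_insert hxV,
      ← Finset.mul_prod_erase V _ hzV, ← Finset.mul_prod_erase V _ hzV]
    -- the vertex x
    have h1 : (dirsAt (insert s(x, z) E) x).card = 1 := by
      rw [dirsAt_insert, hEV x hxV, Finset.union_empty, dirsAt_singleton_self]
      simp
    -- the vertex z
    have hzw : z ∉ verts (z + vec g) w := by
      rw [verts, List.nodup_cons] at hw'
      exact hw'.1
    have h2 : dirsAt E z = {g} := by
      rw [hE, edges_cons_toFinset, dirsAt_insert, dirsAt_edges_eq_empty hzw, Finset.union_empty,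
        dirsAt_singleton_self]
    have hgf : g ≠ opp f := by
      rintro rfl
      apply hx
      simp only [verts, List.mem_cons]
      right
      rw [vec_opp, hz, add_neg_cancel_right]
      exact start_mem_verts _ _
    have h3 : (dirsAt (insert s(x, z) E) z).card = 2 := by
      rw [dirsAt_insert, h2, hz, dirsAt_singleton_other, ← Finset.insert_eq,
        Finset.card_insert_of_notMem (by simpa using hgf.symm), Finset.card_singleton]
    have h4 : ∏ y ∈ V.erase z, q d k (dirsAt (insert s(x, z) E) y).card
        = ∏ y ∈ V.erase z, q d k (dirsAt E y).card := by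
      apply Finset.prod_congr rfl
      intro y hy
      rw [Finset.mem_erase] at hy
      rw [dirsAt_insert, dirsAt_singleton_of_ne (fun h => hxV (by rw [← h]; exact hy.2)) hy.1,
        Finset.empty_union]
    rw [h1, h3, h2, h4, Finset.card_singleton]
    ring

/-- Words without backtracking. -/
def nbWords : ℕ → Dir d → Finset (List (Dir d))
  | 0, _ => {[]}
  | n + 1, g => ((univ.erase (opp g)).sigma fun f => nbWords n f).image fun p => p.1 :: p.2

theorem card_nbWords_le (n : ℕ) (g : Dir d) : (nbWords n g).card ≤ (2 * d - 1) ^ n := by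
  induction n generalizing g with
  | zero => simp [nbWords]
  | succ n ih =>
    rw [nbWords]
    refine Finset.card_image_le.trans ?_
    rw [Finset.card_sigma]
    calc ∑ f ∈ univ.erase (opp g), (nbWords n f).card
        ≤ ∑ f ∈ univ.erase (opp g), (2 * d - 1) ^ n := Finset.sum_le_sum fun f _ => ih f
      _ = (2 * d - 1) ^ (n + 1) := by
          rw [Finset.sum_const, Finset.card_erase_of_mem (Finset.mem_univ _), Finset.card_univ,
            Fintype.card_prod, Fintype.card_fin, Fintype.card_bool, smul_eq_mul, pow_succ,
            mul_comm d 2]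
          ring

theorem mem_nbWords_of_nodup (x : Vtx d) (g : Dir d) (w : List (Dir d))
    (hw : (verts x (g :: w)).Nodup) : w ∈ nbWords w.length g := by
  induction w generalizing x g with
  | nil => simp [nbWords]
  | cons f w ih =>
    have hw' : (verts (x + vec g) (f :: w)).Nodup := by
      simp only [verts, List.nodup_cons] at hw ⊢
      exact hw.2
    have hx : x ∉ verts (x + vec g) (f :: w) := by
      rw [verts, List.nodup_cons] at hw
      exact hw.1
    rw [List.length_cons, nbWords, Finset.mem_image]
    refine ⟨⟨f, w⟩, ?_, rfl⟩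
    rw [Finset.mem_sigma, Finset.mem_erase]
    refine ⟨⟨?_, Finset.mem_univ _⟩, ih _ _ hw'⟩
    rintro rfl
    apply hx
    simp only [verts, List.mem_cons]
    right
    rw [vec_opp, add_neg_cancel_right]
    exact start_mem_verts _ _

theorem mem_Open_of_adj {ω : Vtx d → Finset (Dir d)} {E : Finset (Sym2 (Vtx d))}
    (h : ∀ a b, s(a, b) ∈ E → (graph ω).Adj a b) : ω ∈ Open E := by
  intro x f hf
  obtain ⟨g, hg, hgx, -⟩ := h _ _ (mem_dirsAt.1 hf)
  have := vec_injective (add_left_cancel hg)
  rw [this]; exact hgx

theorem exists_word {ω : Vtx d → Finset (Dir d)} {x y : Vtx d} (p : (graph ω).Walk x y) :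
    ∃ w : List (Dir d), verts x w = p.support ∧ endpt x w = y ∧
      ∀ a b, s(a, b) ∈ edges x w → (graph ω).Adj a b := by
  induction p with
  | nil => exact ⟨[], by simp [verts], rfl, by simp [edges]⟩
  | cons h p ih =>
    obtain ⟨w, h1, h2, h3⟩ := ih
    obtain ⟨f, rfl, hf⟩ := id h
    refine ⟨f :: w, by simp [verts, h1], by simp [endpt, h2], ?_⟩
    intro a b hab
    simp only [edges, List.mem_cons] at hab
    rcases hab with hab | hab
    · rw [Sym2.eq_iff] at hab
      rcases hab with ⟨rfl, rfl⟩ | ⟨rfl, rfl⟩
      · exact h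
      · exact h.symm
    · exact h3 a b hab

theorem verts_take_sublist (x : Vtx d) (w : List (Dir d)) (n : ℕ) :
    (verts x (w.take n)).Sublist (verts x w) := by
  induction w generalizing x n with
  | nil => simp
  | cons f w ih =>
    cases n with
    | zero =>
      simp only [List.take_zero, verts]
      exact List.Sublist.cons_cons _ (List.nil_sublist _)
    | succ n =>
      simp only [List.take_succ_cons, verts]
      exact List.Sublist.cons_cons _ (ih _ n)

theorem edges_take_subset (x : Vtx d) (w : List (Dir d)) (n : ℕ) :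
    ∀ e ∈ edges x (w.take n), e ∈ edges x w := by
  induction w generalizing x n with
  | nil => simp
  | cons f w ih =>
    cases n with
    | zero => simp [edges]
    | succ n =>
      intro e he
      simp only [List.take_succ_cons, edges, List.mem_cons] at he ⊢
      rcases he with he | he
      · exact Or.inl he
      · exact Or.inr (ih _ n e he)

theorem exists_saw {ω : Vtx d → Finset (Dir d)}
    (hω : {y : Vtx d | (graph ω).Reachable 0 y}.Infinite) (n : ℕ) :
    ∃ w : List (Dir d), w.length = n ∧ (verts 0 w).Nodup ∧ ω ∈ Open (edges 0 w).toFinset := by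
  have hfin : ((fun w : List (Dir d) => endpt 0 w) '' {w | w.length < n}).Finite :=
    (List.finite_length_lt (Dir d) n).image _
  obtain ⟨y, hy, hy2⟩ := hω.exists_notMem_finite hfin
  obtain ⟨p⟩ := (hy : (graph ω).Reachable 0 y)
  classical
  obtain ⟨w, h1, h2, h3⟩ := exists_word (p.toPath : (graph ω).Walk 0 y)
  have hnd : (verts 0 w).Nodup := by rw [h1]; exact p.toPath.2.support_nodup
  have hlen : n ≤ w.length := by
    by_contra hlt
    push Not at hlt
    exact hy2 ⟨w, hlt, h2⟩
  refine ⟨w.take n, by simp [hlen], hnd.sublist (verts_take_sublist _ _ _), ?_⟩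
  apply mem_Open_of_adj
  intro a b hab
  exact h3 a b (edges_take_subset _ _ _ _ (List.mem_toFinset.1 hab))

theorem theta_eq_zero (d k : ℕ) (hk : k ≤ 2 * d) (h : k * (k - 1) < 2 * d) :
    theta d k hk = 0 := by
  classical
  set μ := law d k hk with hμ
  have hd : 0 < d := by omega
  have hq2 : ((2 * d - 1 : ℕ) : ℝ) * q d k 2 < 1 := by
    have q0 : q d k 0 = 1 := q_zero d k
    have q1 : q d k 1 = k / (2 * d) := by
      have := q_succ (d := d) k (j := 0) (by omega)
      simpa [q0] using this
    have q2 : q d k 2 = (k / (2 * d)) * (((k:ℝ) - 1) / (2 * d - 1)) := by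
      have := q_succ (d := d) k (j := 1) (by omega)
      rw [q1] at this
      simpa using this
    have hd' : (1:ℝ) ≤ d := by exact_mod_cast hd
    rw [q2, Nat.cast_sub (by omega)]
    push_cast
    have h1 : (2 * (d:ℝ) - 1) * (k / (2 * d) * ((k - 1) / (2 * d - 1)))
        = k * (k - 1) / (2 * d) := by
      have : (2 * (d:ℝ) - 1) ≠ 0 := by linarith
      field_simp
    rw [h1, div_lt_one (by positivity)]
    rcases Nat.eq_zero_or_pos k with rfl | hkpos
    · simp; linarith
    · have : ((k * (k - 1) : ℕ) : ℝ) < ((2 * d : ℕ) : ℝ) := by exact_mod_cast h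
      rw [Nat.cast_mul, Nat.cast_sub hkpos] at this
      push_cast at this
      exact this
  set r : ℝ := ((2 * d - 1 : ℕ) : ℝ) * q d k 2 with hr
  have hr0 : 0 ≤ r := mul_nonneg (by positivity) (q_nonneg _ _ _)
  have hbound : ∀ n : ℕ, theta d k hk ≤ ENNReal.ofReal (2 * d * r ^ n) := by
    intro n
    have hsub : {ω | {y : Vtx d | (graph ω).Reachable 0 y}.Infinite} ⊆
        ⋃ f ∈ (univ : Finset (Dir d)), ⋃ w ∈ (nbWords n f).filter
          (fun w => w.length = n ∧ (verts 0 (f :: w)).Nodup),
          Open (edges 0 (f :: w)).toFinset := by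
      intro ω hω
      obtain ⟨w, h1, h2, h3⟩ := exists_saw hω (n + 1)
      cases w with
      | nil => simp at h1
      | cons f w =>
        simp only [List.length_cons, Nat.add_right_cancel_iff] at h1
        refine Set.mem_biUnion (Finset.mem_coe.2 (Finset.mem_univ f))
          (Set.mem_biUnion (Finset.mem_coe.2 (Finset.mem_filter.2 ⟨?_, h1, h2⟩)) h3)
        have := mem_nbWords_of_nodup 0 f w h2
        rwa [h1] at this
    have hterm : ∀ f ∈ (univ : Finset (Dir d)), ∀ w ∈ (nbWords n f).filter
          (fun w => w.length = n ∧ (verts 0 (f :: w)).Nodup),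
          μ (Open (edges 0 (f :: w)).toFinset) ≤ ENNReal.ofReal (q d k 2 ^ n) := by
      intro f _ w hw
      rw [Finset.mem_filter] at hw
      have := law_saw k hk f w 0 hw.2.2
      rw [hw.2.1] at this
      rw [← ENNReal.ofReal_toReal (measure_ne_top μ _)]
      exact ENNReal.ofReal_le_ofReal this
    calc theta d k hk ≤ _ := measure_mono hsub
      _ ≤ ∑ f ∈ (univ : Finset (Dir d)), ∑ w ∈ (nbWords n f).filter
          (fun w => w.length = n ∧ (verts 0 (f :: w)).Nodup),
          μ (Open (edges 0 (f :: w)).toFinset) := by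
          refine (measure_biUnion_finset_le _ _).trans ?_
          exact Finset.sum_le_sum fun f _ => measure_biUnion_finset_le _ _
      _ ≤ ∑ f ∈ (univ : Finset (Dir d)), ∑ w ∈ (nbWords n f).filter
          (fun w => w.length = n ∧ (verts 0 (f :: w)).Nodup), ENNReal.ofReal (q d k 2 ^ n) :=
          Finset.sum_le_sum fun f hf => Finset.sum_le_sum fun w hw => hterm f hf w hw
      _ ≤ ∑ f ∈ (univ : Finset (Dir d)), ENNReal.ofReal (r ^ n) := by
          apply Finset.sum_le_sum
          intro f _
          rw [Finset.sum_const, nsmul_eq_mul, ← ENNReal.ofReal_natCast,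
            ← ENNReal.ofReal_mul (by positivity)]
          apply ENNReal.ofReal_le_ofReal
          rw [hr, mul_pow]
          apply mul_le_mul_of_nonneg_right _ (pow_nonneg (q_nonneg _ _ _) _)
          have h1 := (Finset.card_filter_le (nbWords n f)
            (fun w => w.length = n ∧ (verts 0 (f :: w)).Nodup)).trans (card_nbWords_le n f)
          exact_mod_cast h1
      _ = ENNReal.ofReal (2 * d * r ^ n) := by
          rw [Finset.sum_const, Finset.card_univ, Fintype.card_prod, Fintype.card_fin,
            Fintype.card_bool, nsmul_eq_mul, ← ENNReal.ofReal_natCast,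
            ← ENNReal.ofReal_mul (by positivity)]
          congr 1
          push_cast
          ring
  have htend : Tendsto (fun n : ℕ => ENNReal.ofReal (2 * d * r ^ n)) atTop (nhds 0) := by
    have h1 : Tendsto (fun n : ℕ => 2 * d * r ^ n) atTop (nhds (2 * d * 0)) :=
      (tendsto_pow_atTop_nhds_zero_of_lt_one hr0 hq2).const_mul _
    rw [mul_zero] at h1
    have := ENNReal.tendsto_ofReal h1
    simpa using this
  exact le_antisymm (ge_of_tendsto' htend hbound) zero_le

end KBnG
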