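import Mathlib

/-! The bidirectional k-neighbour graph on ℤ^d: definitions. -/

open MeasureTheory

namespace KBnG

/-- A nearest-neighbour direction of `ℤ^d`: `(i, true)` stands for `+e_i`, `(i, false)` for
`-e_i`. There are `2 * d` directions. -/
abbrev Dir (d : ℕ) : Type := Fin d × Bool

/-- The vertices of `ℤ^d`. -/
abbrev Vtx (d : ℕ) : Type := Fin d → ℤ

/-- The step `± e_i` of a direction. -/
def vec {d : ℕ} (f : Dir d) : Vtx d := Pi.single f.1 (if f.2 then 1 else -1)

/-- The opposite direction. -/
def opp {d : ℕ} (f : Dir d) : Dir d := (f.1, !f.2)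

/-- The bidirectional graph of a family of choices `ω` (the vertex `x` chooses its neighbours
`x + vec f`, `f ∈ ω x`): `x` and `y` are joined when they are nearest neighbours, `x` chose `y`
and `y` chose `x`. -/
def graph {d : ℕ} (ω : Vtx d → Finset (Dir d)) : SimpleGraph (Vtx d) where
  Adj x y := ∃ f : Dir d, y = x + vec f ∧ f ∈ ω x ∧ opp f ∈ ω y
  symm := by
    constructor
    rintro x y ⟨f, rfl, h1, h2⟩
    refine ⟨opp f, ?_, h2, ?_⟩
    · funext i
      by_cases h : i = f.1
      · subst h; cases hf : f.2 <;> simp [vec, opp, hf]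
      · simp [vec, opp, h]
    · simpa [opp] using h1
  loopless := by
    constructor
    rintro x ⟨f, h, -⟩
    have := congrFun h f.1
    cases hf : f.2 <;> simp [vec, hf] at this

theorem powersetCard_nonempty {d k : ℕ} (h : k ≤ 2 * d) :
    (Finset.powersetCard k (Finset.univ : Finset (Dir d))).Nonempty := by
  rw [Finset.powersetCard_nonempty]
  simpa [mul_comm] using h

/-- The law of the choice of one vertex: uniform on the `k`-element sets of directions. -/
noncomputable def choiceLaw (d k : ℕ) (h : k ≤ 2 * d) : Measure (Finset (Dir d)) :=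
  (PMF.uniformOfFinset (Finset.powersetCard k Finset.univ) (powersetCard_nonempty h)).toMeasure

instance (d k : ℕ) (h : k ≤ 2 * d) : IsProbabilityMeasure (choiceLaw d k h) := by
  unfold choiceLaw; infer_instance

/-- The law of all the choices: independent over the vertices. -/
noncomputable def law (d k : ℕ) (h : k ≤ 2 * d) : Measure (Vtx d → Finset (Dir d)) :=
  Measure.infinitePi fun _ => choiceLaw d k h

instance (d k : ℕ) (h : k ≤ 2 * d) : IsProbabilityMeasure (law d k h) := by
  unfold law; infer_instance

/-- `θ(k,d)`: the probability that the component of the origin is infinite. -/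
noncomputable def theta (d k : ℕ) (h : k ≤ 2 * d) : ENNReal :=
  law d k h {ω | {y : Vtx d | (graph ω).Reachable 0 y}.Infinite}

/-- `k_c(d)`: the least `k ∈ {1, …, 2d}` for which the graph percolates. -/
noncomputable def kc (d : ℕ) : ℕ :=
  sInf {k : ℕ | 1 ≤ k ∧ ∃ h : k ≤ 2 * d, 0 < theta d k h}

end KBnG
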