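import Pool.Agent.Helper5.KBnG.Model

/-! Probability that a finite set of edges is open. -/

open MeasureTheory Finset

namespace KBnG

variable {d : ℕ}

theorem vec_injective : Function.Injective (vec : Dir d → Vtx d) := by
  rintro ⟨i, a⟩ ⟨j, b⟩ h
  have hij : i = j := by
    by_contra hne
    have := congrFun h i
    cases a <;> simp [vec, hne] at this
  subst hij
  have := congrFun h i
  cases a <;> cases b <;> simp [vec] at this ⊢

theorem vec_opp (f : Dir d) : vec (opp f) = - vec f := by
  funext i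
  by_cases h : i = f.1
  · subst h; cases hf : f.2 <;> simp [vec, opp, hf]
  · simp [vec, opp, h]

theorem opp_opp (f : Dir d) : opp (opp f) = f := by simp [opp]

theorem vec_ne_zero (f : Dir d) : vec f ≠ 0 := by
  intro h
  have := congrFun h f.1
  cases hf : f.2 <;> simp [vec, hf] at this

/-- The directions at `x` of the edges of `E`. -/
def dirsAt (E : Finset (Sym2 (Vtx d))) (x : Vtx d) : Finset (Dir d) :=
  univ.filter fun f => s(x, x + vec f) ∈ E

theorem mem_dirsAt {E : Finset (Sym2 (Vtx d))} {x : Vtx d} {f : Dir d} :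
    f ∈ dirsAt E x ↔ s(x, x + vec f) ∈ E := by simp [dirsAt]

theorem dirsAt_union (E E' : Finset (Sym2 (Vtx d))) (x : Vtx d) :
    dirsAt (E ∪ E') x = dirsAt E x ∪ dirsAt E' x := by
  ext f; simp [mem_dirsAt]

theorem dirsAt_inter (E E' : Finset (Sym2 (Vtx d))) (x : Vtx d) :
    dirsAt (E ∩ E') x = dirsAt E x ∩ dirsAt E' x := by
  ext f; simp [mem_dirsAt]

/-- All edges of `E` are open. -/
def Open (E : Finset (Sym2 (Vtx d))) : Set (Vtx d → Finset (Dir d)) :=
  {ω | ∀ x, dirsAt E x ⊆ ω x}

theorem Open_inter (E E' : Finset (Sym2 (Vtx d))) : Open E ∩ Open E' = Open (E ∪ E') := by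
  ext ω
  simp only [Open, Set.mem_inter_iff, Set.mem_ofPred_eq, dirsAt_union, Finset.union_subset_iff]
  constructor
  · rintro ⟨h1, h2⟩ x; exact ⟨h1 x, h2 x⟩
  · intro h; exact ⟨fun x => (h x).1, fun x => (h x).2⟩

theorem adj_of_mem_Open {E : Finset (Sym2 (Vtx d))} {ω : Vtx d → Finset (Dir d)}
    (hω : ω ∈ Open E) {x : Vtx d} {f : Dir d} (h : s(x, x + vec f) ∈ E) :
    (graph ω).Adj x (x + vec f) := by
  refine ⟨f, rfl, hω x (mem_dirsAt.2 h), hω (x + vec f) (mem_dirsAt.2 ?_)⟩
  rw [vec_opp, add_neg_cancel_right, Sym2.eq_swap]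
  exact h

/-- The probability that a given vertex chooses a given set of `j` neighbours. -/
noncomputable def q (d k j : ℕ) : ℝ := (k.choose j : ℝ) / ((2 * d).choose j : ℝ)

theorem choiceLaw_subset (k : ℕ) (h : k ≤ 2 * d) (R : Finset (Dir d)) :
    (choiceLaw d k h).real {T | R ⊆ T} = q d k R.card := by
  have hcard : (univ : Finset (Dir d)).card = 2 * d := by simp [mul_comm]
  have hR : R.card ≤ 2 * d := hcard ▸ Finset.card_le_univ R
  rw [choiceLaw, Measure.real, PMF.toMeasure_uniformOfFinset_apply _ _ (MeasurableSet.of_discrete),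
    ENNReal.toReal_div]
  simp only [Set.mem_ofPred_eq, ENNReal.toReal_natCast, card_powersetCard, hcard]
  by_cases hk : R.card ≤ k
  · rw [card_filter_powersetCard_subset R univ k (subset_univ _) hk, hcard, q]
    have h1 : (0:ℝ) < ((2 * d).choose k : ℝ) := by exact_mod_cast Nat.choose_pos h
    have h2 : (0:ℝ) < ((2 * d).choose R.card : ℝ) := by exact_mod_cast Nat.choose_pos hR
    rw [div_eq_div_iff h1.ne' h2.ne']
    have := Nat.choose_mul (n := 2 * d) (k := k) (s := R.card) hk
    have h3 : ((2 * d).choose k : ℝ) * (k.choose R.card : ℝ)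
        = ((2 * d).choose R.card : ℝ) * ((2 * d - R.card).choose (k - R.card) : ℝ) := by
      exact_mod_cast this
    linarith
  · push Not at hk
    have : (powersetCard k (univ : Finset (Dir d))).filter (fun T => R ⊆ T) = ∅ := by
      apply Finset.filter_eq_empty_iff.2
      intro T hT hRT
      have := Finset.card_le_card hRT
      rw [(mem_powersetCard.1 hT).2] at this
      omega
    rw [this, q, Nat.choose_eq_zero_of_lt hk]
    simp

theorem measurableSet_Open (E : Finset (Sym2 (Vtx d))) :
    MeasurableSet (Open E) := by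
  have : Open E = ⋂ x : Vtx d, (fun ω : Vtx d → Finset (Dir d) => ω x) ⁻¹' {T | dirsAt E x ⊆ T} := by
    ext ω; simp [Open]
  rw [this]
  exact MeasurableSet.iInter fun x => measurable_pi_apply x MeasurableSet.of_discrete

/-- The vertices touched by `E`. -/
def touched (E : Finset (Sym2 (Vtx d))) : Finset (Vtx d) := E.biUnion fun e => e.toFinset

theorem dirsAt_eq_empty {E : Finset (Sym2 (Vtx d))} {x : Vtx d} (hx : x ∉ touched E) :
    dirsAt E x = ∅ := by
  rw [Finset.eq_empty_iff_forall_notMem]
  intro f hf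
  apply hx
  rw [touched, Finset.mem_biUnion]
  exact ⟨_, mem_dirsAt.1 hf, by simp⟩

theorem law_Open (k : ℕ) (h : k ≤ 2 * d) (E : Finset (Sym2 (Vtx d))) (V : Finset (Vtx d))
    (hV : ∀ x, x ∉ V → dirsAt E x = ∅) :
    (law d k h).real (Open E) = ∏ x ∈ V, q d k (dirsAt E x).card := by
  have : Open E = Set.pi V fun x => {T | dirsAt E x ⊆ T} := by
    ext ω
    simp only [Open, Set.mem_ofPred_eq, Set.mem_pi, Finset.mem_coe]
    constructor
    · intro H x _; exact H x
    · intro H x
      by_cases hx : x ∈ V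
      · exact H x hx
      · rw [hV x hx]; exact Finset.empty_subset _
  rw [this, law, Measure.real, Measure.infinitePi_pi _ (fun i _ => MeasurableSet.of_discrete),
    ENNReal.toReal_prod]
  apply Finset.prod_congr rfl
  intro x _
  rw [← choiceLaw_subset k h]
  rfl

theorem sum_dirsAt_le (E : Finset (Sym2 (Vtx d))) (V : Finset (Vtx d)) :
    ∑ x ∈ V, (dirsAt E x).card ≤ 2 * E.card := by
  classical
  rw [← Finset.card_sigma]
  have hmaps : ∀ p ∈ V.sigma (fun x => dirsAt E x), s(p.1, p.1 + vec p.2) ∈ E := by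
    intro p hp
    exact mem_dirsAt.1 (Finset.mem_sigma.1 hp).2
  have := Finset.card_le_mul_card_image_of_maps_to (f := fun p : (_ : Vtx d) × Dir d =>
    s(p.1, p.1 + vec p.2)) (s := V.sigma (fun x => dirsAt E x)) (t := E) hmaps 2 ?_
  · exact this
  · intro e _
    induction e using Sym2.ind with
    | _ a b =>
      have hinj : Set.InjOn (fun p : (_ : Vtx d) × Dir d => (p.1, p.1 + vec p.2))
          ((V.sigma (fun x => dirsAt E x)).filter
            (fun p => s(p.1, p.1 + vec p.2) = s(a, b)) : Set _) := by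
        rintro ⟨x, f⟩ _ ⟨y, g⟩ _ hpq
        simp only [Prod.mk.injEq] at hpq
        obtain ⟨rfl, h2⟩ := hpq
        have := vec_injective (add_left_cancel h2)
        subst this; rfl
      rw [← Finset.card_image_of_injOn hinj]
      refine (Finset.card_le_card (t := {(a, b), (b, a)}) ?_).trans (Finset.card_le_two)
      intro p hp
      simp only [Finset.mem_image, Finset.mem_filter] at hp
      obtain ⟨⟨x, f⟩, ⟨-, hxf⟩, rfl⟩ := hp
      rw [Sym2.eq_iff] at hxf
      simp only [Finset.mem_insert, Finset.mem_singleton, Prod.mk.injEq]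
      exact hxf

end KBnG
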