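import Pool.Agent.Helper5.KBnG.Return

/-! The renewal bound. -/

open Finset

namespace KBnG

variable {d : ℕ} {M S : Finset (Fin d)} {L : ℕ}

/-- The weighted sum over layered words. -/
noncomputable def W (M S : Finset (Fin d)) (L : ℕ) (E : Finset (Sym2 (Vtx d))) (A : ℝ) (n : ℕ)
    (u : Vtx d) : ℝ :=
  ∑ w ∈ words M S L n, A ^ cnt E u w

theorem W_succ (E : Finset (Sym2 (Vtx d))) (A : ℝ) (n : ℕ) (u : Vtx d) :
    W M S L E A (n + 1) u = ∑ σ ∈ mainWords M L ∅, A ^ cnt E u σ *
      ∑ a ∈ S, A ^ hit E (endpt u σ) (a, true) * W M S L E A n (endpt u σ + vec (a, true)) := by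
  unfold W
  rw [sum_words_succ]
  refine Finset.sum_congr rfl fun σ _ => ?_
  rw [Finset.mul_sum]
  refine Finset.sum_congr rfl fun a _ => ?_
  rw [Finset.mul_sum, Finset.mul_sum]
  refine Finset.sum_congr rfl fun w _ => ?_
  rw [cnt_append_cons, pow_add, pow_add]
  ring

theorem card_words_succ (n : ℕ) : (words M S L (n + 1)).card
    = (mainWords M L ∅).card * (S.card * (words M S L n).card) := by
  simp only [Finset.card_eq_sum_ones]
  rw [sum_words_succ]
  simp only [← Finset.card_eq_sum_ones, Finset.sum_const, smul_eq_mul, mul_one]

theorem W_nonneg (E : Finset (Sym2 (Vtx d))) {A : ℝ} (hA : 1 ≤ A) (n : ℕ) (u : Vtx d) :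
    0 ≤ W M S L E A n u := Finset.sum_nonneg fun w _ => by positivity

/-- No edge is used when the walk does not meet the environment. -/
theorem cnt_eq_zero {E : Finset (Sym2 (Vtx d))} {x : Vtx d} {w : List (Dir d)}
    (h : ∀ v ∈ verts x w, ∀ f, s(v, v + vec f) ∉ E) : cnt E x w = 0 := by
  induction w generalizing x with
  | nil => rfl
  | cons f w ih =>
    simp only [cnt]
    rw [hit_of_notMem (h x (by simp [verts]) f), ih]
    intro v hv g
    exact h v (by simp only [verts, List.mem_cons]; exact Or.inr hv) g

theorem renewal (hMS : Disjoint M S) {E : Finset (Sym2 (Vtx d))} {V : Finset (Vtx d)}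
    (env : Env S L E V) {A C1 η K R : ℝ} (hA : 1 ≤ A) (hS : 0 < S.card) (hK : 0 ≤ K)
    (hR : 0 ≤ R)
    (hT1 : ∀ u, T M E A (fun _ => 1) L ∅ u ≤ C1 * (mainWords M L ∅).card)
    (hT2 : ∀ φ : Vtx d → ℝ, (∀ u, φ u ≤ 1) → (∀ u, u ∉ V → φ u ≤ 0) →
      ∀ u, T M E A φ L ∅ u ≤ η * (mainWords M L ∅).card)
    (hret : ∀ n u, ∑ m ∈ range n, ret S V (m + 1) u ≤ R)
    (hKK : C1 * (1 + K * R) + A / S.card * η * (1 + K * (1 + R)) ≤ 1 + K) (n : ℕ) (u : Vtx d) :
    W M S L E A n u ≤
      (words M S L n).card * (1 + K * ∑ m ∈ range (n + 1), ret S V m u) := by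
  classical
  have hSp : (0:ℝ) < S.card := by exact_mod_cast hS
  have hApos : 0 < A := by linarith
  have hret0 : ∀ u, ret S V 0 u ≤ 1 := by
    intro u; simp only [ret]; split_ifs <;> norm_num
  induction n generalizing u with
  | zero =>
    have : W M S L E A 0 u = 1 := by simp [W, words, cnt]
    rw [this]
    have h1 : 0 ≤ K * ∑ m ∈ range (0 + 1), ret S V m u :=
      mul_nonneg hK (Finset.sum_nonneg fun m _ => ret_nonneg m u)
    simp only [words, Finset.card_singleton, Nat.cast_one, one_mul]
    linarith
  | succ n ih =>
    set N : ℝ := ((words M S L n).card : ℝ) with hN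
    set N1 : ℝ := ((mainWords M L ∅).card : ℝ) with hN1
    have hN0 : 0 ≤ N := by positivity
    have hN10 : 0 ≤ N1 := by positivity
    have hcard : ((words M S L (n + 1)).card : ℝ) = N1 * (S.card * N) := by
      rw [card_words_succ]; push_cast; rfl
    rw [hcard, W_succ]
    -- the sum over the special step without weights
    have hspec : ∀ σ ∈ mainWords M L ∅, ∑ a ∈ S, W M S L E A n (endpt u σ + vec (a, true))
        ≤ N * S.card * (1 + K * ∑ m ∈ range (n + 1), ret S V (m + 1) u) := by
      intro σ hσ
      have hcongr : ∀ a ∈ S, ∀ m, ret S V m (endpt u σ + vec (a, true))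
          = ret S V m (u + vec (a, true)) := by
        intro a _ m
        apply ret_congr
        intro i hi
        simp only [Pi.add_apply]
        rw [spec_of_mem_verts hMS hσ (endpt_mem_verts u σ) i hi]
      calc ∑ a ∈ S, W M S L E A n (endpt u σ + vec (a, true))
          ≤ ∑ a ∈ S, N * (1 + K * ∑ m ∈ range (n + 1), ret S V m (u + vec (a, true))) := by
            apply Finset.sum_le_sum
            intro a ha
            refine (ih _).trans (le_of_eq ?_)
            congr 3
            exact Finset.sum_congr rfl fun m _ => hcongr a ha m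
        _ = N * (S.card + K * ∑ m ∈ range (n + 1), ∑ a ∈ S, ret S V m (u + vec (a, true))) := by
            rw [← Finset.mul_sum, Finset.sum_add_distrib, ← Finset.mul_sum, Finset.sum_comm]
            simp
        _ = N * (S.card + K * ∑ m ∈ range (n + 1), S.card * ret S V (m + 1) u) := by
            congr 3
            apply Finset.sum_congr rfl
            intro m _
            rw [ret]
            field_simp
        _ = _ := by
            rw [← Finset.mul_sum]; ring
    have hcard' : N1 * (S.card * N) = (S.card * N) * N1 := by ring
    by_cases hH : Hit S V u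
    · -- the walk is in the layer of the environment
      obtain ⟨p, hp⟩ := env.up (lvl S u)
      set φ : Vtx d → ℝ := fun v => if v = p.1 ∧ v ∈ V then 1 else 0 with hφ
      have hφ0 : ∀ v, 0 ≤ φ v := by intro v; simp only [hφ]; split_ifs <;> norm_num
      have hφ1 : ∀ v, φ v ≤ 1 := by intro v; simp only [hφ]; split_ifs <;> norm_num
      have hφV : ∀ v, v ∉ V → φ v ≤ 0 := by intro v hv; simp [hφ, hv]
      have hWle : ∀ v, W M S L E A n v ≤ N * (1 + K * (1 + R)) := by
        intro v
        refine (ih v).trans ?_
        apply mul_le_mul_of_nonneg_left _ hN0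
        have : ∑ m ∈ range (n + 1), ret S V m v ≤ 1 + R := by
          rw [Finset.sum_range_succ']
          have h1 := hret n v
          have h2 := hret0 v
          linarith
        have := mul_le_mul_of_nonneg_left this hK
        linarith
      have hinner : ∀ σ ∈ mainWords M L ∅,
          ∑ a ∈ S, A ^ hit E (endpt u σ) (a, true) * W M S L E A n (endpt u σ + vec (a, true))
            ≤ N * S.card * (1 + K * R) + φ (endpt u σ) * (A * (N * (1 + K * (1 + R)))) := by
        intro σ hσ
        set v := endpt u σ with hv
        have hlv : lvl S v = lvl S u := lvl_of_mem_verts hMS hσ (endpt_mem_verts u σ)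
        have hterm : ∀ a ∈ S, A ^ hit E v (a, true) * W M S L E A n (v + vec (a, true))
            ≤ W M S L E A n (v + vec (a, true))
              + (if some a = p.2 then φ v * (A * (N * (1 + K * (1 + R)))) else 0) := by
          intro a ha
          by_cases hin : s(v, v + vec (a, true)) ∈ E
          · obtain ⟨h1, h2⟩ := hp v hlv a ha hin
            have hvV := env.touch v (a, true) hin
            rw [hit_of_mem hin, if_pos h2, pow_one]
            have hφv : φ v = 1 := by simp only [hφ]; rw [if_pos ⟨h1, hvV⟩]
            rw [hφv, one_mul]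
            have h3 := hWle (v + vec (a, true))
            have h4 := W_nonneg (M := M) (S := S) (L := L) E hA n (v + vec (a, true))
            have h5 := mul_le_mul_of_nonneg_left h3 hApos.le
            linarith
          · rw [hit_of_notMem hin, pow_zero, one_mul]
            have : 0 ≤ (if some a = p.2 then φ v * (A * (N * (1 + K * (1 + R)))) else 0) := by
              split_ifs
              · have := hφ0 v; positivity
              · exact le_refl _
            linarith
        refine (Finset.sum_le_sum hterm).trans ?_
        rw [Finset.sum_add_distrib]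
        apply add_le_add
        · refine (hspec σ hσ).trans ?_
          apply mul_le_mul_of_nonneg_left _ (by positivity)
          have := mul_le_mul_of_nonneg_left (hret (n + 1) u) hK
          linarith
        · rw [← Finset.sum_filter, Finset.sum_const, nsmul_eq_mul]
          have hc1 : (S.filter fun a => some a = p.2).card ≤ 1 := by
            rw [Finset.card_le_one]
            intro a ha b hb
            rw [Finset.mem_filter] at ha hb
            have := ha.2.trans hb.2.symm
            simpa using this
          have hc2 : ((S.filter fun a => some a = p.2).card : ℝ) ≤ 1 := by exact_mod_cast hc1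
          have h0 : 0 ≤ φ v * (A * (N * (1 + K * (1 + R)))) := by
            have := hφ0 v; positivity
          nlinarith
      calc ∑ σ ∈ mainWords M L ∅, A ^ cnt E u σ * ∑ a ∈ S, A ^ hit E (endpt u σ) (a, true) *
              W M S L E A n (endpt u σ + vec (a, true))
          ≤ ∑ σ ∈ mainWords M L ∅, A ^ cnt E u σ * (N * S.card * (1 + K * R)
              + φ (endpt u σ) * (A * (N * (1 + K * (1 + R))))) := by
            apply Finset.sum_le_sum
            intro σ hσ
            exact mul_le_mul_of_nonneg_left (hinner σ hσ) (by positivity)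
        _ = T M E A (fun _ => 1) L ∅ u * (N * S.card * (1 + K * R))
              + T M E A φ L ∅ u * (A * (N * (1 + K * (1 + R)))) := by
            unfold T
            rw [Finset.sum_mul, Finset.sum_mul, ← Finset.sum_add_distrib]
            apply Finset.sum_congr rfl
            intro σ _
            ring
        _ ≤ (C1 * N1) * (N * S.card * (1 + K * R)) + (η * N1) * (A * (N * (1 + K * (1 + R)))) := by
            apply add_le_add
            · exact mul_le_mul_of_nonneg_right (hT1 u) (by positivity)
            · exact mul_le_mul_of_nonneg_right (hT2 φ hφ1 hφV u) (by positivity)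
        _ = (N1 * (S.card * N)) * (C1 * (1 + K * R) + A / S.card * η * (1 + K * (1 + R))) := by
            field_simp
        _ ≤ (N1 * (S.card * N)) * (1 + K) := mul_le_mul_of_nonneg_left hKK (by positivity)
        _ ≤ (N1 * (S.card * N)) * (1 + K * ∑ m ∈ range (n + 1 + 1), ret S V m u) := by
            apply mul_le_mul_of_nonneg_left _ (by positivity)
            have : 1 ≤ ∑ m ∈ range (n + 1 + 1), ret S V m u := by
              rw [Finset.sum_range_succ']
              have h1 : ret S V 0 u = 1 := by simp only [ret]; rw [if_pos hH]
              have h2 : 0 ≤ ∑ m ∈ range (n + 1), ret S V (m + 1) u :=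
                Finset.sum_nonneg fun m _ => ret_nonneg _ u
              linarith
            have := mul_le_mul_of_nonneg_left this hK
            linarith
    · -- the walk is away from the environment in this layer
      have hnot : ∀ σ ∈ mainWords M L ∅, ∀ v ∈ verts u σ, ∀ f, s(v, v + vec f) ∉ E := by
        intro σ hσ v hv f hin
        have hvV := env.touch v f hin
        exact hH ⟨v, hvV, spec_of_mem_verts hMS hσ hv⟩
      calc ∑ σ ∈ mainWords M L ∅, A ^ cnt E u σ * ∑ a ∈ S, A ^ hit E (endpt u σ) (a, true) *
              W M S L E A n (endpt u σ + vec (a, true))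
          = ∑ σ ∈ mainWords M L ∅, ∑ a ∈ S, W M S L E A n (endpt u σ + vec (a, true)) := by
            apply Finset.sum_congr rfl
            intro σ hσ
            rw [cnt_eq_zero (hnot σ hσ), pow_zero, one_mul]
            apply Finset.sum_congr rfl
            intro a _
            rw [hit_of_notMem (hnot σ hσ _ (endpt_mem_verts u σ) _), pow_zero, one_mul]
        _ ≤ ∑ σ ∈ mainWords M L ∅,
              N * S.card * (1 + K * ∑ m ∈ range (n + 1), ret S V (m + 1) u) :=
            Finset.sum_le_sum hspec
        _ = (N1 * (S.card * N)) * (1 + K * ∑ m ∈ range (n + 1), ret S V (m + 1) u) := by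
            rw [Finset.sum_const, nsmul_eq_mul]; ring
        _ = _ := by
            rw [Finset.sum_range_succ' (fun m => ret S V m u) (n + 1)]
            have h1 : ret S V 0 u = 0 := by simp only [ret]; rw [if_neg hH]
            rw [h1, add_zero]

end KBnG
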