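import Pool.Agent.Helper5.KBnG.Layer

/-! Return probabilities of the special coordinates. -/

open Finset

namespace KBnG

variable {d : ℕ} {M S : Finset (Fin d)} {L : ℕ}

/-! ### Binomial coefficients extended to `ℤ` -/

/-- `Cz m t`: the number of words of `m` bits with `t` ones. -/
def Cz : ℕ → ℤ → ℕ
  | 0, t => if t = 0 then 1 else 0
  | m + 1, t => Cz m t + Cz m (t - 1)

theorem Cz_of_neg (m : ℕ) {t : ℤ} (ht : t < 0) : Cz m t = 0 := by
  induction m generalizing t with
  | zero => simp [Cz, ht.ne]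
  | succ m ih => simp only [Cz]; rw [ih ht, ih (by omega)]

theorem Cz_natCast (m t : ℕ) : Cz m (t : ℤ) = m.choose t := by
  induction m generalizing t with
  | zero =>
    cases t with
    | zero => simp [Cz]
    | succ t => simp only [Cz, Nat.choose_zero_succ]; rw [if_neg (by omega)]
  | succ m ih =>
    cases t with
    | zero =>
      simp only [Cz]
      rw [ih, Cz_of_neg m (by norm_num)]
      simp
    | succ t =>
      simp only [Cz]
      rw [ih, Nat.choose_succ_succ]
      have : ((t + 1 : ℕ) : ℤ) - 1 = (t : ℤ) := by push_cast; ring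
      rw [this, ih]
      ring

theorem Cz_le (m : ℕ) (t : ℤ) : Cz m t ≤ m.choose (m / 2) := by
  by_cases ht : t < 0
  · rw [Cz_of_neg m ht]; exact Nat.zero_le _
  · push Not at ht
    lift t to ℕ using ht
    rw [Cz_natCast]
    exact Nat.choose_le_middle t m

theorem centralBinom_sq_le (n : ℕ) : n.centralBinom ^ 2 * (3 * n + 1) ≤ 16 ^ n := by
  induction n with
  | zero => simp
  | succ n ih =>
    have h1 := Nat.succ_mul_centralBinom_succ n
    have h2 : (n + 1) ^ 2 * ((n + 1).centralBinom ^ 2 * (3 * (n + 1) + 1))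
        ≤ (n + 1) ^ 2 * 16 ^ (n + 1) := by
      calc (n + 1) ^ 2 * ((n + 1).centralBinom ^ 2 * (3 * (n + 1) + 1))
          = ((n + 1) * (n + 1).centralBinom) ^ 2 * (3 * n + 4) := by ring
        _ = (2 * (2 * n + 1) * n.centralBinom) ^ 2 * (3 * n + 4) := by rw [h1]
        _ = n.centralBinom ^ 2 * (4 * ((2 * n + 1) ^ 2 * (3 * n + 4))) := by ring
        _ ≤ n.centralBinom ^ 2 * (4 * (4 * (n + 1) ^ 2 * (3 * n + 1))) := by
            apply Nat.mul_le_mul_left
            apply Nat.mul_le_mul_left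
            nlinarith
        _ = (n.centralBinom ^ 2 * (3 * n + 1)) * (16 * (n + 1) ^ 2) := by ring
        _ ≤ 16 ^ n * (16 * (n + 1) ^ 2) := Nat.mul_le_mul_right _ ih
        _ = (n + 1) ^ 2 * 16 ^ (n + 1) := by ring
    exact Nat.le_of_mul_le_mul_left h2 (by positivity)

theorem choose_half_sq_le (m : ℕ) : (m.choose (m / 2)) ^ 2 * m ≤ 4 ^ m := by
  obtain ⟨n, rfl | rfl⟩ : ∃ n, m = 2 * n ∨ m = 2 * n + 1 := ⟨m / 2, by omega⟩
  · have h1 : 2 * n / 2 = n := by omega
    rw [h1]
    have := centralBinom_sq_le n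
    rw [Nat.centralBinom] at this
    calc ((2 * n).choose n) ^ 2 * (2 * n) ≤ ((2 * n).choose n) ^ 2 * (3 * n + 1) := by
          apply Nat.mul_le_mul_left; omega
      _ ≤ 16 ^ n := this
      _ = 4 ^ (2 * n) := by rw [pow_mul]; norm_num
  · have h1 : (2 * n + 1) / 2 = n := by omega
    rw [h1]
    have h2 := centralBinom_sq_le (n + 1)
    have h3 : (n + 1).centralBinom = 2 * (2 * n + 1).choose n := by
      rw [Nat.centralBinom, show 2 * (n + 1) = (2 * n + 1) + 1 by ring, Nat.choose_succ_succ,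
        Nat.choose_symm_half]
      ring
    rw [h3] at h2
    have h4 : 4 * (((2 * n + 1).choose n) ^ 2 * (2 * n + 1)) ≤ 4 * 4 ^ (2 * n + 1) := by
      calc 4 * (((2 * n + 1).choose n) ^ 2 * (2 * n + 1))
          ≤ 4 * (((2 * n + 1).choose n) ^ 2 * (3 * (n + 1) + 1)) := by
            apply Nat.mul_le_mul_left; apply Nat.mul_le_mul_left; omega
        _ = (2 * (2 * n + 1).choose n) ^ 2 * (3 * (n + 1) + 1) := by ring
        _ ≤ 16 ^ (n + 1) := h2
        _ = 4 * 4 ^ (2 * n + 1) := by
            rw [show (16:ℕ) = 4 ^ 2 by norm_num, ← pow_mul]; ring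
    exact Nat.le_of_mul_le_mul_left h4 (by norm_num)

theorem Cz_div_le (m : ℕ) (hm : 0 < m) (t : ℤ) : ((Cz m t : ℝ) / 2 ^ m) ^ 2 ≤ 1 / m := by
  have h1 : (Cz m t : ℝ) ≤ (m.choose (m / 2) : ℝ) := by exact_mod_cast Cz_le m t
  have h2 : ((m.choose (m / 2) : ℝ)) ^ 2 * m ≤ 4 ^ m := by exact_mod_cast choose_half_sq_le m
  have hm' : (0:ℝ) < m := by exact_mod_cast hm
  rw [div_pow, div_le_div_iff₀ (by positivity) hm', one_mul, ← pow_mul, mul_comm m 2, pow_mul]
  norm_num
  calc (Cz m t : ℝ) ^ 2 * m ≤ (m.choose (m / 2) : ℝ) ^ 2 * m := by gcongr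
    _ ≤ 4 ^ m := h2

/-! ### Return probabilities -/

/-- `u` agrees on `S` with a vertex of `V`. -/
def Hit (S : Finset (Fin d)) (V : Finset (Vtx d)) (u : Vtx d) : Prop :=
  ∃ v ∈ V, ∀ i ∈ S, v i = u i

theorem Hit_congr {V : Finset (Vtx d)} {u u' : Vtx d} (h : ∀ i ∈ S, u i = u' i) :
    Hit S V u ↔ Hit S V u' := by
  constructor
  · rintro ⟨v, hv, hh⟩; exact ⟨v, hv, fun i hi => (hh i hi).trans (h i hi)⟩
  · rintro ⟨v, hv, hh⟩; exact ⟨v, hv, fun i hi => (hh i hi).trans (h i hi).symm⟩

open Classical in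
/-- The probability that after `m` uniform positive special steps one agrees on `S` with `V`. -/
noncomputable def ret (S : Finset (Fin d)) (V : Finset (Vtx d)) : ℕ → Vtx d → ℝ
  | 0, u => if Hit S V u then 1 else 0
  | m + 1, u => (∑ a ∈ S, ret S V m (u + vec (a, true))) / S.card

theorem ret_congr {V : Finset (Vtx d)} (m : ℕ) {u u' : Vtx d} (h : ∀ i ∈ S, u i = u' i) :
    ret S V m u = ret S V m u' := by
  induction m generalizing u u' with
  | zero =>
    simp only [ret]
    by_cases h1 : Hit S V u'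
    · rw [if_pos h1, if_pos ((Hit_congr h).2 h1)]
    · rw [if_neg h1, if_neg (fun h2 => h1 ((Hit_congr h).1 h2))]
  | succ m ih =>
    simp only [ret]
    congr 1
    apply Finset.sum_congr rfl
    intro a _
    apply ih
    intro i hi
    simp only [Pi.add_apply, h i hi]

theorem ret_nonneg {V : Finset (Vtx d)} (m : ℕ) (u : Vtx d) : 0 ≤ ret S V m u := by
  induction m generalizing u with
  | zero => simp only [ret]; split_ifs <;> norm_num
  | succ m ih => simp only [ret]; exact div_nonneg (Finset.sum_nonneg fun a _ => ih _) (by positivity)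

theorem ret_le_inv {E : Finset (Sym2 (Vtx d))} {V : Finset (Vtx d)} (env : Env S L E V)
    (hS : 0 < S.card) (m : ℕ) (u : Vtx d) : ret S V (m + 1) u ≤ 1 / S.card := by
  classical
  have hSp : (0:ℝ) < S.card := by exact_mod_cast hS
  induction m generalizing u with
  | zero =>
    simp only [ret]
    gcongr
    rw [Finset.sum_boole]
    have : (S.filter fun a => Hit S V (u + vec (a, true))).card ≤ 1 := by
      rw [Finset.card_le_one]
      intro a ha b hb
      rw [Finset.mem_filter] at ha hb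
      obtain ⟨haS, v, hv, hva⟩ := ha
      obtain ⟨hbS, v', hv', hvb⟩ := hb
      have hl : lvl S v = lvl S v' := by
        rw [lvl_congr hva, lvl_congr hvb, lvl_add_vec _ haS, lvl_add_vec _ hbS]
      have hs := env.spec v hv v' hv' hl
      by_contra hab
      have h1 := hva a haS
      have h2 := hvb a haS
      rw [hs a haS, h2] at h1
      rw [add_vec_apply_of_ne u (f := (b, true)) hab] at h1
      exact add_vec_apply_ne u (a, true) h1.symm
    exact_mod_cast this
  | succ m ih =>
    rw [ret]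
    rw [div_le_div_iff_of_pos_right hSp]
    calc ∑ a ∈ S, ret S V (m + 1) (u + vec (a, true)) ≤ ∑ a ∈ S, 1 / (S.card : ℝ) :=
          Finset.sum_le_sum fun a _ => ih _
      _ = 1 := by rw [Finset.sum_const, nsmul_eq_mul]; field_simp

/-- The bit functionals. -/
def cof (S : Finset (Fin d)) (bits : Fin d → Fin 4 → Bool) (β : Fin 4) (u : Vtx d) : ℤ :=
  ∑ i ∈ S, if bits i β then u i else 0

theorem cof_congr (bits : Fin d → Fin 4 → Bool) (β : Fin 4) {u u' : Vtx d}
    (h : ∀ i ∈ S, u i = u' i) : cof S bits β u = cof S bits β u' :=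
  Finset.sum_congr rfl fun i hi => by rw [h i hi]

theorem cof_add_vec (bits : Fin d → Fin 4 → Bool) (β : Fin 4) (u : Vtx d) {a : Fin d}
    (ha : a ∈ S) : cof S bits β (u + vec (a, true))
      = cof S bits β u + (if bits a β then 1 else 0) := by
  have h : ∀ i ∈ S, (if bits i β then (u + vec (a, true)) i else 0)
      = (if bits i β then u i else 0) + (if i = a then (if bits a β then 1 else 0) else 0) := by
    intro i _
    by_cases hia : i = a
    · subst hia
      by_cases hb : bits i β <;> simp [hb, vec]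
    · by_cases hb : bits i β <;> simp [hb, vec, hia]
  unfold cof
  rw [Finset.sum_congr rfl h, Finset.sum_add_distrib, Finset.sum_ite_eq' S a, if_pos ha]

theorem exists_target {E : Finset (Sym2 (Vtx d))} {V : Finset (Vtx d)} (env : Env S L E V)
    (bits : Fin d → Fin 4 → Bool) : ∃ τ : ℤ → Fin 4 → ℤ, ∀ u, Hit S V u →
      ∀ β, cof S bits β u = τ (lvl S u) β := by
  classical
  refine ⟨fun ℓ β => if h : ∃ v ∈ V, lvl S v = ℓ then cof S bits β h.choose else 0, ?_⟩
  rintro u ⟨v, hv, hvu⟩ β
  have hex : ∃ v ∈ V, lvl S v = lvl S u := ⟨v, hv, lvl_congr hvu⟩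
  simp only [dif_pos hex]
  have h1 := hex.choose_spec
  have h2 := env.spec v hv _ h1.1 ((lvl_congr hvu).trans h1.2.symm)
  apply cof_congr
  intro i hi
  rw [← h2 i hi, hvu i hi]

theorem ret_le_prod {V : Finset (Vtx d)}
    {s' : ℕ} (hs' : 0 < s') (bits : Fin d → Fin 4 → Bool)
    (hbits : ∀ b : Fin 4 → Bool, (S.filter fun a => bits a = b).card = s')
    (hScard : S.card = 16 * s')
    (τ : ℤ → Fin 4 → ℤ) (hτ : ∀ u, Hit S V u → ∀ β, cof S bits β u = τ (lvl S u) β)
    (m : ℕ) (u : Vtx d) : ret S V m u ≤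
      ∏ β : Fin 4, ((Cz m (τ (lvl S u + m) β - cof S bits β u) : ℝ) / 2 ^ m) := by
  classical
  induction m generalizing u with
  | zero =>
    simp only [ret, Cz, pow_zero, div_one, Nat.cast_zero, add_zero]
    split_ifs with h
    · apply le_of_eq
      symm
      apply Finset.prod_eq_one
      intro β _
      rw [hτ u h β, sub_self]
      simp
    · exact Finset.prod_nonneg fun β _ => by positivity
  | succ m ih =>
    rw [ret, div_le_iff₀ (by rw [hScard]; positivity)]
    set t : Fin 4 → ℤ := fun β => τ (lvl S u + (m + 1 : ℕ)) β - cof S bits β u with ht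
    calc ∑ a ∈ S, ret S V m (u + vec (a, true))
        ≤ ∑ a ∈ S, ∏ β : Fin 4, ((Cz m (t β - (if bits a β then 1 else 0)) : ℝ) / 2 ^ m) := by
          apply Finset.sum_le_sum
          intro a ha
          refine (ih _).trans (le_of_eq ?_)
          apply Finset.prod_congr rfl
          intro β _
          rw [lvl_add_vec _ ha, cof_add_vec bits β u ha]
          simp only [ht]
          congr 3
          push_cast
          ring_nf
      _ = ∑ b : Fin 4 → Bool, ∑ a ∈ S.filter (fun a => bits a = b),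
            ∏ β : Fin 4, ((Cz m (t β - (if bits a β then 1 else 0)) : ℝ) / 2 ^ m) := by
          rw [Finset.sum_fiberwise_of_maps_to (fun a _ => Finset.mem_univ _)]
      _ = ∑ b : Fin 4 → Bool, (s' : ℝ) *
            ∏ β : Fin 4, ((Cz m (t β - (if b β then 1 else 0)) : ℝ) / 2 ^ m) := by
          apply Finset.sum_congr rfl
          intro b _
          rw [Finset.sum_congr rfl (g := fun _ =>
            ∏ β : Fin 4, ((Cz m (t β - (if b β then 1 else 0)) : ℝ) / 2 ^ m))]
          · rw [Finset.sum_const, hbits b, nsmul_eq_mul]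
          · intro a ha
            rw [(Finset.mem_filter.1 ha).2]
      _ = (s' : ℝ) * ∏ β : Fin 4, ∑ c : Bool, ((Cz m (t β - (if c then 1 else 0)) : ℝ) / 2 ^ m) := by
          rw [← Finset.mul_sum, Finset.prod_univ_sum]
          rfl
      _ = (s' : ℝ) * ∏ β : Fin 4, (2 * ((Cz (m + 1) (t β) : ℝ) / 2 ^ (m + 1))) := by
          congr 1
          apply Finset.prod_congr rfl
          intro β _
          rw [Fintype.sum_bool, Cz]
          simp only [if_true, Bool.false_eq_true, if_false, sub_zero]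
          push_cast
          rw [pow_succ]
          field_simp
          ring
      _ = (∏ β : Fin 4, ((Cz (m + 1) (t β) : ℝ) / 2 ^ (m + 1))) * (S.card : ℝ) := by
          rw [Finset.prod_mul_distrib, Finset.prod_const, Finset.card_univ, Fintype.card_fin,
            hScard]
          push_cast
          ring

theorem ret_le_sq {E : Finset (Sym2 (Vtx d))} {V : Finset (Vtx d)} (env : Env S L E V)
    {s' : ℕ} (hs' : 0 < s') (bits : Fin d → Fin 4 → Bool)
    (hbits : ∀ b : Fin 4 → Bool, (S.filter fun a => bits a = b).card = s')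
    (hScard : S.card = 16 * s') (m : ℕ) (hm : 0 < m) (u : Vtx d) :
    ret S V m u ≤ ((m : ℝ) ^ 2)⁻¹ := by
  obtain ⟨τ, hτ⟩ := exists_target env bits
  refine (ret_le_prod hs' bits hbits hScard τ hτ m u).trans ?_
  have hm' : (0:ℝ) < m := by exact_mod_cast hm
  have h1 : ∀ β : Fin 4, ((Cz m (τ (lvl S u + m) β - cof S bits β u) : ℝ) / 2 ^ m)
      ≤ √(1 / m) := by
    intro β
    apply Real.le_sqrt_of_sq_le
    exact Cz_div_le m hm _
  calc _ ≤ ∏ β : Fin 4, √(1 / (m:ℝ)) := Finset.prod_le_prod (fun β _ => by positivity) fun β _ => h1 β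
    _ = (√(1 / (m:ℝ)) ^ 2) ^ 2 := by
        rw [Finset.prod_const, Finset.card_univ, Fintype.card_fin, ← pow_mul]
    _ = _ := by
        rw [Real.sq_sqrt (by positivity), one_div, inv_pow]

/-- The expected number of returns is small. -/
theorem sum_ret_le {E : Finset (Sym2 (Vtx d))} {V : Finset (Vtx d)} (env : Env S L E V)
    {s' : ℕ} (hs' : 0 < s') (bits : Fin d → Fin 4 → Bool)
    (hbits : ∀ b : Fin 4 → Bool, (S.filter fun a => bits a = b).card = s')
    (hScard : S.card = 16 * s') (Q : ℕ) (hQ : 0 < Q) (n : ℕ) (u : Vtx d) :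
    ∑ m ∈ range n, ret S V (m + 1) u ≤ Q / S.card + 1 / Q := by
  have hSp : 0 < S.card := by omega
  have hSp' : (0:ℝ) < S.card := by exact_mod_cast hSp
  have hQ' : (0:ℝ) < Q := by exact_mod_cast hQ
  have h1 : ∑ m ∈ range n, ret S V (m + 1) u = ∑ m ∈ Ioc 0 n, ret S V m u := by
    rw [Finset.range_eq_Ico, Finset.sum_Ico_add' (fun m => ret S V m u) 0 n 1]
    apply Finset.sum_congr _ fun _ _ => rfl
    ext m; simp only [Finset.mem_Ico, Finset.mem_Ioc]; omega
  rw [h1]
  have h2 : Ioc 0 n ⊆ Ioc 0 Q ∪ Ioc Q (max n Q) := by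
    intro m hm
    simp only [Finset.mem_union, Finset.mem_Ioc] at hm ⊢
    omega
  calc ∑ m ∈ Ioc 0 n, ret S V m u
      ≤ ∑ m ∈ Ioc 0 Q ∪ Ioc Q (max n Q), ret S V m u :=
        Finset.sum_le_sum_of_subset_of_nonneg h2 fun m _ _ => ret_nonneg m u
    _ = ∑ m ∈ Ioc 0 Q, ret S V m u + ∑ m ∈ Ioc Q (max n Q), ret S V m u := by
        apply Finset.sum_union
        rw [Finset.disjoint_left]
        intro m h3 h4
        simp only [Finset.mem_Ioc] at h3 h4
        omega
    _ ≤ ∑ m ∈ Ioc 0 Q, 1 / (S.card : ℝ) + ∑ m ∈ Ioc Q (max n Q), ((m : ℝ) ^ 2)⁻¹ := by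
        apply add_le_add
        · apply Finset.sum_le_sum
          intro m hm
          simp only [Finset.mem_Ioc] at hm
          obtain ⟨m, rfl⟩ : ∃ m', m = m' + 1 := ⟨m - 1, by omega⟩
          exact ret_le_inv env hSp m u
        · apply Finset.sum_le_sum
          intro m hm
          simp only [Finset.mem_Ioc] at hm
          exact ret_le_sq env hs' bits hbits hScard m (by omega) u
    _ ≤ Q / S.card + 1 / Q := by
        apply add_le_add
        · rw [Finset.sum_const, Nat.card_Ioc, nsmul_eq_mul, Nat.sub_zero]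
          apply le_of_eq
          ring
        · have := sum_Ioc_inv_sq_le_sub (α := ℝ) (k := Q) (n := max n Q) hQ.ne' (le_max_right _ _)
          have h5 : (0:ℝ) ≤ ((max n Q : ℕ) : ℝ)⁻¹ := by positivity
          rw [one_div]
          linarith

end KBnG
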