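import Pool.Agent.Helper5.KBnG.Prob

/-! The second moment bound. -/

open MeasureTheory Finset

namespace KBnG

variable {d : ℕ}

theorem q_zero (d k : ℕ) : q d k 0 = 1 := by simp [q]

theorem q_succ {d : ℕ} (k : ℕ) {j : ℕ} (hj : j < 2 * d) :
    q d k (j + 1) = q d k j * (((k : ℝ) - j) / ((2 * d : ℝ) - j)) := by
  have h1 : (0:ℝ) < ((2 * d).choose j : ℝ) := by exact_mod_cast Nat.choose_pos hj.le
  have h2 : (0:ℝ) < ((2 * d).choose (j + 1) : ℝ) := by exact_mod_cast Nat.choose_pos hj
  have h3 : ((2 * d).choose (j + 1) : ℝ) * (j + 1) = ((2 * d).choose j : ℝ) * ((2 * d : ℝ) - j) := by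
    have := Nat.choose_succ_right_eq (2 * d) j
    have h4 : (((2 * d).choose (j + 1) * (j + 1) : ℕ) : ℝ)
        = (((2 * d).choose j * (2 * d - j) : ℕ) : ℝ) := by exact_mod_cast this
    push_cast [Nat.cast_sub hj.le] at h4
    linarith
  have h5 : (k.choose (j + 1) : ℝ) * (j + 1) = (k.choose j : ℝ) * ((k : ℝ) - j) := by
    by_cases hk : j ≤ k
    · have := Nat.choose_succ_right_eq k j
      have h4 : ((k.choose (j + 1) * (j + 1) : ℕ) : ℝ)
          = ((k.choose j * (k - j) : ℕ) : ℝ) := by exact_mod_cast this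
      push_cast [Nat.cast_sub hk] at h4
      linarith
    · push Not at hk
      rw [Nat.choose_eq_zero_of_lt hk, Nat.choose_eq_zero_of_lt (by omega)]
      simp
  have hj' : (j : ℝ) < 2 * d := by exact_mod_cast hj
  have h6 : (0:ℝ) < (2 * d : ℝ) - j := by linarith
  have h7 : (0:ℝ) < (j : ℝ) + 1 := by positivity
  unfold q
  rw [div_mul_div_comm, div_eq_div_iff h2.ne' (by positivity)]
  have : ((k.choose (j + 1) : ℝ)) * (((2 * d).choose j : ℝ) * ((2 * d : ℝ) - j)) * (j + 1)
      = ((k.choose j : ℝ) * ((k : ℝ) - j)) * ((2 * d).choose (j + 1) : ℝ) * (j + 1) := by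
    rw [← h3, ← h5]; ring
  have := mul_right_cancel₀ h7.ne' this
  linarith

theorem q_nonneg (d k j : ℕ) : 0 ≤ q d k j := by unfold q; positivity

theorem q_pos {d k j : ℕ} (hj : j ≤ k) (hk : k ≤ 2 * d) : 0 < q d k j := by
  unfold q
  have h1 := Nat.choose_pos hj
  have h2 := Nat.choose_pos (hj.trans hk)
  positivity

theorem q_le_one (d k j : ℕ) (hk : k ≤ 2 * d) : q d k j ≤ 1 := by
  unfold q
  apply div_le_one_of_le₀ _ (by positivity)
  exact_mod_cast Nat.choose_le_choose j hk

/-- `1/q₂`, the cost of an edge. -/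
noncomputable def cost (d k : ℕ) : ℝ := 1 / q d k 2

theorem one_le_cost {d k : ℕ} (h2 : 2 ≤ k) (hk : k ≤ 2 * d) : 1 ≤ cost d k := by
  unfold cost
  rw [le_div_iff₀ (q_pos h2 hk)]
  simpa using q_le_one d k 2 hk

theorem q_union_le {k : ℕ} (h2 : 2 ≤ k) (hk : k ≤ 2 * d) (hd : 2 ≤ d) (R R' : Finset (Dir d))
    (hR : R.card ≤ 2) (hR' : R'.card ≤ 2) :
    q d k (R ∪ R').card ≤ q d k R.card * q d k R'.card * (√(cost d k)) ^ (R ∩ R').card := by
  have hD : (4:ℝ) ≤ 2 * d := by
    have : (2:ℝ) ≤ d := by exact_mod_cast hd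
    linarith
  have hK : (2:ℝ) ≤ k := by exact_mod_cast h2
  have hKD : (k:ℝ) ≤ 2 * d := by exact_mod_cast hk
  set D : ℝ := 2 * (d : ℝ) with hDdef
  set K : ℝ := (k : ℝ) with hKdef
  have q0 : q d k 0 = 1 := q_zero d k
  have q1 : q d k 1 = K / D := by
    have := q_succ (d := d) k (j := 0) (by omega)
    simpa [q0] using this
  have q2 : q d k 2 = q d k 1 * ((K - 1) / (D - 1)) := by
    have := q_succ (d := d) k (j := 1) (by omega)
    simpa using this
  have q3 : q d k 3 = q d k 2 * ((K - 2) / (D - 2)) := by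
    have := q_succ (d := d) k (j := 2) (by omega)
    simpa using this
  have q4 : q d k 4 = q d k 3 * ((K - 3) / (D - 3)) := by
    have := q_succ (d := d) k (j := 3) (by omega)
    simpa using this
  have p1 : 0 < q d k 1 := q_pos (by omega) hk
  have p2 : 0 < q d k 2 := q_pos h2 hk
  have p3 : 0 ≤ q d k 3 := q_nonneg d k 3
  have t10 : (K - 1) / (D - 1) ≤ K / D := by
    rw [div_le_div_iff₀ (by linarith) (by linarith)]; nlinarith
  have t21 : (K - 2) / (D - 2) ≤ (K - 1) / (D - 1) := by
    rw [div_le_div_iff₀ (by linarith) (by linarith)]; nlinarith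
  have t31 : (K - 3) / (D - 3) ≤ (K - 1) / (D - 1) := by
    rw [div_le_div_iff₀ (by linarith) (by linarith)]; nlinarith
  have t1n : 0 ≤ (K - 1) / (D - 1) := div_nonneg (by linarith) (by linarith)
  have t2n : 0 ≤ (K - 2) / (D - 2) := div_nonneg (by linarith) (by linarith)
  have a : q d k 2 ≤ q d k 1 * q d k 1 := by
    calc q d k 2 = q d k 1 * ((K - 1) / (D - 1)) := q2
      _ ≤ q d k 1 * (K / D) := by gcongr
      _ = _ := by rw [q1]
  have b : q d k 3 ≤ q d k 1 * q d k 2 := by
    calc q d k 3 = q d k 2 * ((K - 2) / (D - 2)) := q3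
      _ ≤ q d k 2 * (K / D) := mul_le_mul_of_nonneg_left (t21.trans t10) p2.le
      _ = _ := by rw [q1]; ring
  have e : q d k 3 * q d k 1 ≤ q d k 2 * q d k 2 := by
    calc q d k 3 * q d k 1 = q d k 2 * (q d k 1 * ((K - 2) / (D - 2))) := by rw [q3]; ring
      _ ≤ q d k 2 * (q d k 1 * ((K - 1) / (D - 1))) := by gcongr
      _ = _ := by rw [← q2]
  have c : q d k 4 ≤ q d k 2 * q d k 2 := by
    calc q d k 4 = q d k 3 * ((K - 3) / (D - 3)) := q4
      _ ≤ q d k 3 * ((K - 1) / (D - 1)) := by gcongr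
      _ = q d k 2 * (((K - 2) / (D - 2)) * ((K - 1) / (D - 1))) := by rw [q3]; ring
      _ ≤ q d k 2 * ((K / D) * ((K - 1) / (D - 1))) :=
        mul_le_mul_of_nonneg_left (mul_le_mul_of_nonneg_right (t21.trans t10) t1n) p2.le
      _ = q d k 2 * q d k 2 := by rw [← q1, ← q2]
  have hr0 : 0 ≤ √(cost d k) := Real.sqrt_nonneg _
  have hr2 : √(cost d k) ^ 2 = cost d k := Real.sq_sqrt (zero_le_one.trans (one_le_cost h2 hk))
  have hcq : cost d k * q d k 2 = 1 := by unfold cost; field_simp
  have hr1 : 1 ≤ q d k 1 * √(cost d k) := by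
    have : 1 ≤ (q d k 1 * √(cost d k)) ^ 2 := by
      rw [mul_pow, hr2]
      calc (1:ℝ) = q d k 2 * cost d k := by linarith
        _ ≤ (q d k 1 * q d k 1) * cost d k := by
          gcongr; exact zero_le_one.trans (one_le_cost h2 hk)
        _ = _ := by ring
    exact (one_le_sq_iff₀ (by positivity)).1 this
  have hu := Finset.card_union R R'
  have hi1 := Finset.card_le_card (Finset.inter_subset_left (s₁ := R) (s₂ := R'))
  have hi2 := Finset.card_le_card (Finset.inter_subset_right (s₁ := R) (s₂ := R'))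
  generalize hRc : R.card = x at *
  generalize hRc' : R'.card = y at *
  generalize hI : (R ∩ R').card = z at *
  generalize hU : (R ∪ R').card = u at *
  interval_cases x <;> interval_cases y <;> interval_cases z <;> simp at hu <;> subst hu
  · simp [q0]
  · simp [q0]
  · simp [q0]
  · simp [q0]
  · simpa using a
  · rw [pow_one]; nlinarith
  · rw [pow_zero, mul_one]; exact b
  · rw [pow_one]; nlinarith
  · simp [q0]
  · rw [pow_zero, mul_one]; linarith
  · rw [pow_one]; nlinarith
  · rw [pow_zero, mul_one]; exact c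
  · rw [pow_one]
    calc q d k 3 = q d k 3 * 1 := (mul_one _).symm
      _ ≤ q d k 3 * (q d k 1 * √(cost d k)) := by gcongr
      _ = (q d k 3 * q d k 1) * √(cost d k) := by ring
      _ ≤ _ := by gcongr
  · rw [hr2]
    have : q d k 2 * q d k 2 * cost d k = q d k 2 * (cost d k * q d k 2) := by ring
    rw [this, hcq, mul_one]

theorem law_Open_inter_le {k : ℕ} (h2 : 2 ≤ k) (hk : k ≤ 2 * d) (hd : 2 ≤ d)
    (E E' : Finset (Sym2 (Vtx d)))
    (hE : ∀ x, (dirsAt E x).card ≤ 2) (hE' : ∀ x, (dirsAt E' x).card ≤ 2) :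
    (law d k hk).real (Open E ∩ Open E') ≤
      (law d k hk).real (Open E) * (law d k hk).real (Open E') * cost d k ^ (E ∩ E').card := by
  classical
  rw [Open_inter]
  set V := touched (E ∪ E') with hV
  have hV' : ∀ x, x ∉ V → dirsAt (E ∪ E') x = ∅ := fun x hx => dirsAt_eq_empty hx
  have h1 : ∀ x, x ∉ V → dirsAt E x = ∅ := by
    intro x hx
    have := hV' x hx
    rw [dirsAt_union, Finset.union_eq_empty] at this
    exact this.1
  have h1' : ∀ x, x ∉ V → dirsAt E' x = ∅ := by
    intro x hx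
    have := hV' x hx
    rw [dirsAt_union, Finset.union_eq_empty] at this
    exact this.2
  rw [law_Open k hk _ V hV', law_Open k hk _ V h1, law_Open k hk _ V h1']
  have hc1 := one_le_cost h2 hk
  have hr1 : 1 ≤ √(cost d k) := by rw [Real.one_le_sqrt]; exact hc1
  calc ∏ x ∈ V, q d k (dirsAt (E ∪ E') x).card
      ≤ ∏ x ∈ V, (q d k (dirsAt E x).card * q d k (dirsAt E' x).card
          * (√(cost d k)) ^ (dirsAt (E ∩ E') x).card) := by
        apply Finset.prod_le_prod
        · intro x _; exact q_nonneg _ _ _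
        · intro x _
          rw [dirsAt_union, dirsAt_inter]
          exact q_union_le h2 hk hd _ _ (hE x) (hE' x)
    _ = (∏ x ∈ V, q d k (dirsAt E x).card) * (∏ x ∈ V, q d k (dirsAt E' x).card)
          * (√(cost d k)) ^ (∑ x ∈ V, (dirsAt (E ∩ E') x).card) := by
        rw [Finset.prod_mul_distrib, Finset.prod_mul_distrib, Finset.prod_pow_eq_pow_sum]
    _ ≤ (∏ x ∈ V, q d k (dirsAt E x).card) * (∏ x ∈ V, q d k (dirsAt E' x).card)
          * (√(cost d k)) ^ (2 * (E ∩ E').card) := by
        apply mul_le_mul_of_nonneg_left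
        · exact pow_le_pow_right₀ hr1 (sum_dirsAt_le _ _)
        · apply mul_nonneg <;> exact Finset.prod_nonneg fun x _ => q_nonneg _ _ _
    _ = _ := by
        rw [pow_mul, Real.sq_sqrt (zero_le_one.trans hc1)]

theorem law_Open_pos {k : ℕ} (h2 : 2 ≤ k) (hk : k ≤ 2 * d)
    (E : Finset (Sym2 (Vtx d))) (hE : ∀ x, (dirsAt E x).card ≤ 2) :
    0 < (law d k hk).real (Open E) := by
  rw [law_Open k hk E (touched E) (fun x hx => dirsAt_eq_empty hx)]
  exact Finset.prod_pos fun x _ => q_pos ((hE x).trans h2) hk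

theorem second_moment {ι : Type*} {k : ℕ} (h2 : 2 ≤ k) (hk : k ≤ 2 * d) (hd : 2 ≤ d)
    (I : Finset ι) (hI : I.Nonempty) (E : ι → Finset (Sym2 (Vtx d)))
    (hE : ∀ i ∈ I, ∀ x, (dirsAt (E i) x).card ≤ 2) (K : ℝ) (hK : 0 < K)
    (hsum : ∀ i ∈ I, ∑ j ∈ I, cost d k ^ (E i ∩ E j).card ≤ K * I.card) :
    1 / K ≤ (law d k hk).real (⋃ i ∈ I, Open (E i)) := by
  classical
  set μ := law d k hk with hμ
  set p : ι → ℝ := fun i => μ.real (Open (E i)) with hp
  have hppos : ∀ i ∈ I, 0 < p i := fun i hi => law_Open_pos h2 hk _ (hE i hi)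
  set U := ⋃ i ∈ I, Open (E i) with hU
  have hUm : MeasurableSet U := Finset.measurableSet_biUnion _ fun i _ => measurableSet_Open _
  have hIc : (0:ℝ) < I.card := by exact_mod_cast hI.card_pos
  set X : (Vtx d → Finset (Dir d)) → ℝ :=
    fun ω => ∑ i ∈ I, (Open (E i)).indicator (fun _ => 1 / p i) ω with hX
  have hX2 : ∀ ω, X ω * X ω = ∑ i ∈ I, ∑ j ∈ I,
      (Open (E i) ∩ Open (E j)).indicator (fun _ => 1 / (p i * p j)) ω := by
    intro ω
    simp only [hX]
    rw [Finset.sum_mul_sum]
    refine Finset.sum_congr rfl fun i _ => Finset.sum_congr rfl fun j _ => ?_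
    by_cases h1 : ω ∈ Open (E i) <;> by_cases h2 : ω ∈ Open (E j) <;>
      simp [h1, h2, Set.indicator, mul_comm]
  have hint1 : ∀ (S : Set (Vtx d → Finset (Dir d))) (c : ℝ), MeasurableSet S →
      Integrable (S.indicator fun _ => c) μ := fun S c hS =>
    (integrable_const c).indicator hS
  have hXint : ∫ ω, X ω ∂μ = I.card := by
    simp only [hX]
    rw [integral_finsetSum _ fun i _ => hint1 _ _ (measurableSet_Open _)]
    rw [Finset.sum_congr rfl (g := fun _ => (1:ℝ))]
    · simp
    · intro i hi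
      rw [integral_indicator_const _ (measurableSet_Open _)]
      have := hppos i hi
      simp only [smul_eq_mul]
      change p i * (1 / p i) = 1
      field_simp
  have hX2int : ∫ ω, X ω * X ω ∂μ ≤ K * I.card * I.card := by
    simp_rw [hX2]
    rw [integral_finsetSum _ fun i _ => integrable_finsetSum _ fun j _ =>
      hint1 _ _ ((measurableSet_Open _).inter (measurableSet_Open _))]
    calc ∑ i ∈ I, ∫ ω, ∑ j ∈ I, (Open (E i) ∩ Open (E j)).indicator
            (fun _ => 1 / (p i * p j)) ω ∂μ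
        ≤ ∑ i ∈ I, K * I.card := by
          apply Finset.sum_le_sum
          intro i hi
          rw [integral_finsetSum _ fun j _ =>
            hint1 _ _ ((measurableSet_Open _).inter (measurableSet_Open _))]
          refine le_trans (Finset.sum_le_sum fun j hj => ?_) (hsum i hi)
          rw [integral_indicator_const _ ((measurableSet_Open _).inter (measurableSet_Open _)),
            smul_eq_mul]
          have h3 := law_Open_inter_le h2 hk hd (E i) (E j) (hE i hi) (hE j hj)
          have h4 := hppos i hi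
          have h5 := hppos j hj
          rw [mul_one_div, div_le_iff₀ (mul_pos h4 h5)]
          calc _ ≤ _ := h3
            _ = _ := by simp only [hp, hμ]; ring
      _ = K * I.card * I.card := by rw [Finset.sum_const, nsmul_eq_mul]; ring
  set c : ℝ := 1 / (K * I.card) with hc
  have hcpos : 0 < c := by positivity
  have hpt : ∀ ω, X ω ≤ (c * (X ω * X ω) + U.indicator (fun _ => 1 / c) ω) / 2 := by
    intro ω
    by_cases hω : ω ∈ U
    · rw [Set.indicator_of_mem hω]
      have : 0 ≤ c * (X ω - 1 / c) ^ 2 := by positivity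
      have h6 : c * (X ω - 1 / c) ^ 2 = c * (X ω * X ω) - 2 * X ω + 1 / c := by
        field_simp; ring
      linarith
    · rw [Set.indicator_of_notMem hω]
      have : X ω = 0 := by
        simp only [hX]
        apply Finset.sum_eq_zero
        intro i hi
        apply Set.indicator_of_notMem
        intro h
        exact hω (Set.mem_biUnion hi h)
      rw [this]; simp
  have hXI : Integrable X μ := integrable_finsetSum _ fun i _ => hint1 _ _ (measurableSet_Open _)
  have hX2I : Integrable (fun ω => X ω * X ω) μ := by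
    simp_rw [hX2]
    exact integrable_finsetSum _ fun i _ => integrable_finsetSum _ fun j _ =>
      hint1 _ _ ((measurableSet_Open _).inter (measurableSet_Open _))
  have hUI := hint1 U (1 / c) hUm
  have hmain := integral_mono hXI (((hX2I.const_mul c).add hUI).div_const 2) hpt
  rw [hXint] at hmain
  simp only [Pi.add_apply] at hmain
  rw [integral_div, integral_add (hX2I.const_mul c) hUI, integral_const_mul,
    integral_indicator_const _ hUm, smul_eq_mul] at hmain
  have h7 : c * ∫ ω, X ω * X ω ∂μ ≤ I.card := by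
    calc c * ∫ ω, X ω * X ω ∂μ ≤ c * (K * I.card * I.card) := by gcongr
      _ = I.card := by rw [hc]; field_simp
  have h8 : μ.real U * (1 / c) = μ.real U * K * I.card := by rw [hc]; field_simp
  rw [h8] at hmain
  have h9 : (I.card : ℝ) ≤ μ.real U * K * I.card := by linarith
  rw [div_le_iff₀ hK]
  by_contra hcon
  push Not at hcon
  nlinarith

end KBnG
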