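import Pool.Agent.Helper5.KBnG.Renewal

/-! The upper bound: percolation for `k ≥ (1 + δ) √(2d)` and `d` large. -/

open Finset Filter

namespace KBnG

theorem exists_config (d s' : ℕ) (h : 16 * s' ≤ d) :
    ∃ (S : Finset (Fin d)) (bits : Fin d → Fin 4 → Bool), S.card = 16 * s' ∧
      ∀ b : Fin 4 → Bool, (S.filter fun a => bits a = b).card = s' := by
  have e : Fin 16 ≃ (Fin 4 → Bool) := Fintype.equivOfCardEq (by simp)
  set S : Finset (Fin d) := univ.filter fun i => i.val < 16 * s' with hS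
  set bits : Fin d → Fin 4 → Bool := fun i => e ⟨i.val % 16, Nat.mod_lt _ (by norm_num)⟩ with hb
  have hbits : ∀ b : Fin 4 → Bool, (S.filter fun a => bits a = b).card = s' := by
    intro b
    have hr : (e.symm b).val < 16 := (e.symm b).isLt
    have hlt : ∀ j : Fin s', 16 * j.val + (e.symm b).val < d := by
      intro j; have := j.isLt; omega
    have : (S.filter fun a => bits a = b)
        = (univ : Finset (Fin s')).image fun j => ⟨16 * j.val + (e.symm b).val, hlt j⟩ := by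
      ext i
      simp only [hS, hb, Finset.mem_filter, Finset.mem_univ, true_and, Finset.mem_image]
      constructor
      · rintro ⟨h1, h2⟩
        have h3 : (⟨i.val % 16, Nat.mod_lt _ (by norm_num)⟩ : Fin 16) = e.symm b := by
          rw [← h2]; simp
        have h4 : i.val % 16 = (e.symm b).val := congrArg Fin.val h3
        refine ⟨⟨i.val / 16, by omega⟩, ?_⟩
        apply Fin.ext
        simp only
        omega
      · rintro ⟨j, rfl⟩
        have := j.isLt
        refine ⟨by simp only; omega, ?_⟩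
        rw [← Equiv.eq_symm_apply]
        apply Fin.ext
        simp only
        omega
    rw [this, Finset.card_image_of_injective, Finset.card_univ, Fintype.card_fin]
    intro j j' hjj
    have := congrArg Fin.val hjj
    simp only at this
    apply Fin.ext
    omega
  refine ⟨S, bits, ?_, hbits⟩
  rw [Finset.card_eq_sum_card_fiberwise (f := bits) (t := univ) (fun _ _ => Finset.mem_univ _)]
  rw [Finset.sum_congr rfl (fun b _ => hbits b)]
  simp

theorem theta_pos_core (d k L s' Q : ℕ) (h2 : 2 ≤ k) (hk : k ≤ 2 * d) (hd : 2 ≤ d)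
    (hs : 0 < s') (hsd : 16 * s' < d) (hQ : 0 < Q) (ρ Cb y : ℝ) (hρ1 : ρ < 1)
    (hρ : cost d k / (2 * ((d - 16 * s' : ℕ) : ℝ)) ≤ ρ) (hCb : Cb = 2 / (1 - ρ))
    (hy0 : 0 < y) (hy1 : y ≤ 1)
    (hδ1 : ((L:ℝ) + 1) / (2 * ((d - 16 * s' : ℕ) : ℝ)) * (2 * Cb) * L ≤ 1)
    (hδ2 : ((L:ℝ) + 1) / (2 * ((d - 16 * s' : ℕ) : ℝ)) * 4 * L ≤ (1 - ρ) * y)
    (hML : 2 * L ^ 2 ≤ d - 16 * s')
    (hR : (Q : ℝ) / ((16 * s' : ℕ) : ℝ) + 1 / Q ≤ 1 / (4 * (4 + 4 * Cb)))
    (hη : cost d k / ((16 * s' : ℕ) : ℝ) * (4 * ρ ^ L + 6 * y) ≤ 1 / 6) :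
    0 < theta d k hk := by
  classical
  obtain ⟨S, bits, hScard, hbits⟩ := exists_config d s' hsd.le
  set M : Finset (Fin d) := Sᶜ with hM
  have hMcard : M.card = d - 16 * s' := by
    rw [hM, Finset.card_compl, hScard, Fintype.card_fin]
  have hMS : Disjoint M S := by rw [hM]; exact disjoint_compl_left
  have hMpos : 0 < M.card := by omega
  have hSpos : 0 < S.card := by omega
  have hA := one_le_cost h2 hk
  have hCb0 : 0 < Cb := by rw [hCb]; apply div_pos two_pos; linarith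
  rw [← hMcard] at hρ hδ1 hδ2 hML
  rw [← hScard] at hR hη
  set A := cost d k with hAdef
  have hρ0 : 0 < ρ := lt_of_lt_of_le (div_pos (by linarith) (by
    have : (0:ℝ) < M.card := by exact_mod_cast hMpos
    positivity)) hρ
  set C1 : ℝ := 4 + 4 * Cb with hC1
  set K : ℝ := 2 * C1 with hK
  set R : ℝ := 1 / (4 * C1) with hRdef
  have hC1pos : 0 < C1 := by positivity
  have hKR : K * R = 1 / 2 := by rw [hK, hRdef]; field_simp; norm_num
  have hR0 : 0 ≤ R := by positivity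
  have hK0 : 0 ≤ K := by positivity
  apply theta_pos_of_family h2 hk hd (1 + K * (1 + R)) (by positivity)
  intro n
  refine ⟨words M S L n, ?_, ?_, ?_⟩
  · -- nonempty
    have hpos : 0 < (mainWords M L ∅).card := by
      have := pow_le_card_mainWords hML hMpos
      have h3 : (0:ℝ) < M.card := by exact_mod_cast hMpos
      have h4 : (0:ℝ) < (2 * (M.card : ℝ)) ^ L := by positivity
      have h5 : (0:ℝ) < (mainWords M L ∅).card := by linarith
      exact_mod_cast h5
    rw [← Finset.card_pos]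
    induction n with
    | zero => simp [words]
    | succ n ih =>
      rw [card_words_succ]
      exact Nat.mul_pos hpos (Nat.mul_pos hSpos ih)
  · intro w hw
    exact ⟨length_words hw, nodup_words hMS hw 0⟩
  · intro w hw
    have env := env_words hMS hw 0
    have hret : ∀ n u, ∑ m ∈ range n, ret S (verts 0 w).toFinset (m + 1) u ≤ R := by
      intro n u
      exact (sum_ret_le env hs bits hbits hScard Q hQ n u).trans hR
    have hT1 := layer_total hMS env hA hMpos hρ1 hρ hCb hδ1 hML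
    have hT2 : ∀ φ : Vtx d → ℝ, (∀ u, φ u ≤ 1) → (∀ u, u ∉ (verts 0 w).toFinset → φ u ≤ 0) →
        ∀ u, T M (edges 0 w).toFinset A φ L ∅ u ≤ (4 * ρ ^ L + 6 * y) * (mainWords M L ∅).card :=
      fun φ h1 h3 u => layer_end hMS env hA hMpos hρ1 hρ hy0 hy1 hδ2 hML φ h1 h3 u
    have hKK : C1 * (1 + K * R) + A / S.card * (4 * ρ ^ L + 6 * y) * (1 + K * (1 + R))
        ≤ 1 + K := by
      have h3 : 1 + K * (1 + R) = 3 / 2 + 2 * C1 := by
        have : K * (1 + R) = K + K * R := by ring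
        rw [this, hKR]; ring
      rw [h3, hKR]
      have h4 : A / S.card * (4 * ρ ^ L + 6 * y) * (3 / 2 + 2 * C1) ≤ 1 / 6 * (3 / 2 + 2 * C1) := by
        apply mul_le_mul_of_nonneg_right hη (by positivity)
      linarith
    have := renewal hMS env hA hSpos hK0 hR0 hT1 hT2 hret hKK n 0
    change W M S L (edges 0 w).toFinset A n 0 ≤ _
    refine this.trans ?_
    rw [mul_comm]
    apply mul_le_mul_of_nonneg_right _ (by positivity)
    have h5 : ∑ m ∈ range (n + 1), ret S (verts 0 w).toFinset m 0 ≤ 1 + R := by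
      rw [Finset.sum_range_succ']
      have h6 := hret n 0
      have h7 : ret S (verts 0 w).toFinset 0 0 ≤ 1 := by
        simp only [ret]; split_ifs <;> norm_num
      linarith
    have := mul_le_mul_of_nonneg_left h5 hK0
    linarith

theorem cost_le {d k : ℕ} (h2 : 2 ≤ k) (hk : k ≤ 2 * d) (hd : 2 ≤ d) {δ : ℝ} (hδ : 0 < δ)
    (hkd : (1 + δ) * √(2 * d) ≤ k) (hkδ : (1 + 2 * δ) / δ ≤ k) :
    cost d k ≤ 2 * d / (1 + δ) := by
  have hd' : (2:ℝ) ≤ d := by exact_mod_cast hd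
  have hk' : (2:ℝ) ≤ k := by exact_mod_cast h2
  have q0 : q d k 0 = 1 := q_zero d k
  have q1 : q d k 1 = k / (2 * d) := by
    have := q_succ (d := d) k (j := 0) (by omega)
    simpa [q0] using this
  have q2 : q d k 2 = (k / (2 * d)) * (((k:ℝ) - 1) / (2 * d - 1)) := by
    have := q_succ (d := d) k (j := 1) (by omega)
    rw [q1] at this
    simpa using this
  unfold cost
  rw [q2, div_mul_div_comm, one_div_div, div_le_div_iff₀ (by nlinarith) (by linarith)]
  have h1 : (1 + δ) ^ 2 * (2 * d) ≤ (k:ℝ) ^ 2 := by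
    have h3 : ((1 + δ) * √(2 * d)) ^ 2 ≤ (k:ℝ) ^ 2 := by
      apply pow_le_pow_left₀ (by positivity) hkd
    rw [mul_pow, Real.sq_sqrt (by positivity)] at h3
    exact h3
  have h4 : 1 + 2 * δ ≤ δ * k := by
    rw [div_le_iff₀ hδ] at hkδ; linarith
  -- k (k-1) ≥ (1+δ) 2d
  have h5 : (1 + δ) * (2 * d) ≤ (k:ℝ) * (k - 1) := by
    have h6 : (1 + 2 * δ) * ((1 + δ) * (2 * d)) ≤ (1 + 2 * δ) * ((k:ℝ) * (k - 1)) := by
      have h7 : (1 + δ) * k ≤ (1 + 2 * δ) * ((k:ℝ) - 1) := by nlinarith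
      have h8 : (1 + δ) * ((k:ℝ) * k) ≤ (1 + 2 * δ) * ((k:ℝ) * (k - 1)) := by
        have := mul_le_mul_of_nonneg_left h7 (by linarith : (0:ℝ) ≤ k)
        linarith
      have h9 : (1 + 2 * δ) * ((1 + δ) * (2 * d)) ≤ (1 + δ) * ((k:ℝ) * k) := by
        have : (1 + 2 * δ) * (2 * d) ≤ (k:ℝ) * k := by
          have : (1 + 2 * δ) * (2 * d) ≤ (1 + δ) ^ 2 * (2 * (d:ℝ)) := by
            apply mul_le_mul_of_nonneg_right _ (by positivity)
            nlinarith
          nlinarith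
        have := mul_le_mul_of_nonneg_left this (by linarith : (0:ℝ) ≤ 1 + δ)
        linarith
      linarith
    exact le_of_mul_le_mul_left h6 (by linarith)
  nlinarith

theorem upper (δ : ℝ) (hδ : 0 < δ) : ∀ᶠ d : ℕ in atTop, ∀ k : ℕ, ∀ hk : k ≤ 2 * d,
    (1 + δ) * √(2 * d) ≤ k → 0 < theta d k hk := by
  -- parameters
  obtain ⟨p, hp⟩ := exists_nat_gt (2 * (1 + δ) / δ)
  have hp2 : (2:ℝ) < p := by
    refine lt_of_le_of_lt ?_ hp
    rw [le_div_iff₀ hδ]; linarith
  have hp0 : (0:ℝ) < p := by linarith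
  have hpn : 0 < p := by exact_mod_cast hp0
  set ρ : ℝ := 1 / (1 + δ / 2) with hρ
  have hρ0 : 0 < ρ := by positivity
  have hρ1 : ρ < 1 := by rw [hρ, div_lt_one (by positivity)]; linarith
  set Cb : ℝ := 2 / (1 - ρ) with hCb
  have hCb0 : 0 < Cb := by rw [hCb]; apply div_pos two_pos; linarith
  set y : ℝ := 1 / (288 * p) with hy
  have hy0 : 0 < y := by positivity
  have hy1 : y ≤ 1 := by rw [hy, div_le_one (by positivity)]; linarith
  obtain ⟨L, hL⟩ := exists_pow_lt_of_lt_one (show (0:ℝ) < 1 / (192 * p) by positivity) hρ1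
  set R : ℝ := 1 / (4 * (4 + 4 * Cb)) with hR
  have hR0 : 0 < R := by positivity
  obtain ⟨Q, hQ⟩ := exists_nat_gt (2 / R)
  have hQ0 : (0:ℝ) < Q := lt_trans (by positivity) hQ
  have hQn : 0 < Q := by exact_mod_cast hQ0
  -- thresholds
  obtain ⟨D1, hD1⟩ := exists_nat_ge (((L:ℝ) + 1) * (2 * Cb) * L)
  obtain ⟨D2, hD2⟩ := exists_nat_ge (((L:ℝ) + 1) * 4 * L / ((1 - ρ) * y))
  obtain ⟨D3, hD3⟩ := exists_nat_ge (4 * p * Q / R)
  obtain ⟨D4, hD4⟩ := exists_nat_ge (((1 + 2 * δ) / δ) ^ 2)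
  filter_upwards [eventually_ge_atTop (2 + 32 * p + D1 + D2 + D3 + D4 + 4 * L ^ 2)] with d hdge
  intro k hk hkd
  set s' : ℕ := d / (16 * p) with hs'
  have hd0 : (0:ℝ) < d := by exact_mod_cast (show 0 < d by omega)
  have h16p : 0 < 16 * p := by omega
  have hs1 : 16 * p * s' ≤ d := Nat.mul_div_le d (16 * p)
  have hs2 : d < 16 * p * (s' + 1) := Nat.lt_mul_div_succ d h16p
  have hpn2 : 2 < p := by exact_mod_cast hp2
  have hs16 : 3 * (16 * s') ≤ d := by nlinarith
  have hspos : 0 < s' := Nat.div_pos (by omega) h16p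
  have hsd : 16 * s' < d := by omega
  -- real versions
  have hsr : (16 * (s':ℝ)) * p ≤ d := by
    have : ((16 * p * s' : ℕ) : ℝ) ≤ d := by exact_mod_cast hs1
    push_cast at this; linarith
  have hsr2 : (d:ℝ) / (2 * p) ≤ ((16 * s' : ℕ) : ℝ) := by
    have h1 : (d:ℝ) < ((16 * p * (s' + 1) : ℕ) : ℝ) := by exact_mod_cast hs2
    have h2 : (32:ℝ) * p ≤ d := by exact_mod_cast (show 32 * p ≤ d by omega)
    push_cast at h1 ⊢
    rw [div_le_iff₀ (by positivity)]
    nlinarith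
  have hMr : ((d - 16 * s' : ℕ) : ℝ) = d - 16 * s' := by
    rw [Nat.cast_sub hsd.le]; push_cast; ring
  have hMlow : (d:ℝ) * (1 - 1 / p) ≤ ((d - 16 * s' : ℕ) : ℝ) := by
    rw [hMr]
    have : 16 * (s':ℝ) ≤ d / p := by rw [le_div_iff₀ hp0]; exact hsr
    have h3 : (d:ℝ) * (1 - 1 / p) = d - d / p := by ring
    linarith
  have hMhalf : (d:ℝ) ≤ 2 * ((d - 16 * s' : ℕ) : ℝ) := by
    have : d ≤ 2 * (d - 16 * s') := by omega
    exact_mod_cast this
  -- k is large
  have hsq : 0 ≤ √(2 * (d:ℝ)) := Real.sqrt_nonneg _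
  have hkδ : (1 + 2 * δ) / δ ≤ k := by
    have h1 : ((1 + 2 * δ) / δ) ^ 2 ≤ 2 * d := by
      have : (D4:ℝ) ≤ d := by exact_mod_cast (show D4 ≤ d by omega)
      linarith
    have h2 : (1 + 2 * δ) / δ ≤ √(2 * (d:ℝ)) := Real.le_sqrt_of_sq_le h1
    have h3 : √(2 * (d:ℝ)) ≤ (1 + δ) * √(2 * d) := by nlinarith
    linarith
  have h2k : 2 ≤ k := by
    have : (2:ℝ) ≤ k := by
      refine le_trans ?_ hkδ
      rw [le_div_iff₀ hδ]; linarith
    exact_mod_cast this
  have hd2 : 2 ≤ d := by omega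
  have hcost := cost_le h2k hk hd2 hδ hkd hkδ
  have hcost0 : 0 < cost d k := lt_of_lt_of_le one_pos (one_le_cost h2k hk)
  apply theta_pos_core d k L s' Q h2k hk hd2 hspos hsd hQn ρ Cb y hρ1 _ hCb hy0 hy1
  · -- hδ1
    have hd1 : ((L:ℝ) + 1) * (2 * Cb) * L ≤ d := by
      have : (D1:ℝ) ≤ d := by exact_mod_cast (show D1 ≤ d by omega)
      linarith
    rw [div_mul_eq_mul_div, div_mul_eq_mul_div, div_le_one (by linarith)]
    linarith
  · -- hδ2
    have hd1 : ((L:ℝ) + 1) * 4 * L ≤ (1 - ρ) * y * d := by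
      have : (D2:ℝ) ≤ d := by exact_mod_cast (show D2 ≤ d by omega)
      have h3 : ((L:ℝ) + 1) * 4 * L / ((1 - ρ) * y) ≤ d := by linarith
      rw [div_le_iff₀ (mul_pos (by linarith) hy0)] at h3
      linarith
    rw [div_mul_eq_mul_div, div_mul_eq_mul_div, div_le_iff₀ (by linarith)]
    refine hd1.trans ?_
    apply mul_le_mul_of_nonneg_left hMhalf
    exact mul_nonneg (by linarith) hy0.le
  · -- hML
    have : 4 * L ^ 2 ≤ d := by omega
    omega
  · -- hR
    have h1 : 1 / (Q:ℝ) ≤ R / 2 := by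
      rw [div_lt_iff₀ hR0] at hQ
      rw [div_le_div_iff₀ hQ0 two_pos]
      linarith
    have h3 : (Q:ℝ) / ((16 * s' : ℕ) : ℝ) ≤ R / 2 := by
      have h4 : (D3:ℝ) ≤ d := by exact_mod_cast (show D3 ≤ d by omega)
      have h5 : 4 * p * Q / R ≤ d := by linarith
      rw [div_le_iff₀ hR0] at h5
      have h6 : 0 < ((16 * s' : ℕ) : ℝ) := by exact_mod_cast (show 0 < 16 * s' by omega)
      rw [div_le_div_iff₀ h6 two_pos]
      have h7 : (d:ℝ) ≤ ((16 * s' : ℕ) : ℝ) * (2 * p) := by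
        rw [div_le_iff₀ (by positivity)] at hsr2; exact hsr2
      have h8 : 4 * p * Q ≤ ((16 * s' : ℕ) : ℝ) * (2 * p) * R := by nlinarith
      have h9 : (2 * p) * ((Q:ℝ) * 2) ≤ (2 * p) * (R * ((16 * s' : ℕ) : ℝ)) := by linarith
      exact le_of_mul_le_mul_left h9 (by positivity)
    linarith
  · -- hη
    have h6 : 0 < ((16 * s' : ℕ) : ℝ) := by exact_mod_cast (show 0 < 16 * s' by omega)
    have h1 : cost d k / ((16 * s' : ℕ) : ℝ) ≤ 4 * p := by
      rw [div_le_iff₀ h6]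
      have h7 : (d:ℝ) ≤ ((16 * s' : ℕ) : ℝ) * (2 * p) := by
        rw [div_le_iff₀ (by positivity)] at hsr2; exact hsr2
      have h8 : 2 * (d:ℝ) / (1 + δ) ≤ 2 * d := by
        rw [div_le_iff₀ (by positivity)]; nlinarith
      linarith
    have h3 : 4 * ρ ^ L + 6 * y ≤ 1 / (24 * p) := by
      have h4 : 4 * ρ ^ L ≤ 1 / (48 * p) := by
        have : 4 * (1 / (192 * (p:ℝ))) = 1 / (48 * p) := by field_simp; norm_num
        linarith
      have h5 : 6 * y = 1 / (48 * p) := by rw [hy]; field_simp; norm_num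
      have h7 : 1 / (24 * (p:ℝ)) = 1 / (48 * p) + 1 / (48 * p) := by field_simp; norm_num
      linarith
    calc cost d k / ((16 * s' : ℕ) : ℝ) * (4 * ρ ^ L + 6 * y)
        ≤ (4 * p) * (1 / (24 * p)) := by
          apply mul_le_mul h1 h3 (by positivity) (by positivity)
      _ = 1 / 6 := by field_simp; norm_num
  · -- hρ
    have hMpos : 0 < ((d - 16 * s' : ℕ) : ℝ) := by linarith
    rw [div_le_iff₀ (by positivity)]
    refine hcost.trans ?_
    have h1 : (1 + δ / 2) ≤ (1 + δ) * (1 - 1 / p) := by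
      have : (1 + δ) / p ≤ δ / 2 := by
        rw [div_lt_iff₀ hδ] at hp
        rw [div_le_div_iff₀ hp0 two_pos]
        linarith
      have h3 : (1 + δ) * (1 - 1 / (p:ℝ)) = (1 + δ) - (1 + δ) / p := by ring
      linarith
    rw [hρ, div_le_iff₀ (by positivity)]
    have h4 : 1 / (1 + δ / 2) * (2 * ((d - 16 * s' : ℕ) : ℝ)) * (1 + δ)
        = 2 * ((1 + δ) * ((d - 16 * s' : ℕ) : ℝ)) / (1 + δ / 2) := by ring
    rw [h4, le_div_iff₀ (by positivity)]
    have h5 : (1 + δ) * ((d:ℝ) * (1 - 1 / p)) ≤ (1 + δ) * ((d - 16 * s' : ℕ) : ℝ) := by gcongr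
    nlinarith

end KBnG
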