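import Pool.Agent.Helper5.KBnG.Second

/-! Walks, and the percolation criterion. -/

open MeasureTheory Finset Filter

namespace KBnG

variable {d : ℕ}

/-- The vertices of the walk started at `x`. -/
def verts (x : Vtx d) : List (Dir d) → List (Vtx d)
  | [] => [x]
  | f :: w => x :: verts (x + vec f) w

/-- The edges of the walk started at `x`. -/
def edges (x : Vtx d) : List (Dir d) → List (Sym2 (Vtx d))
  | [] => []
  | f :: w => s(x, x + vec f) :: edges (x + vec f) w

/-- The last vertex. -/
def endpt (x : Vtx d) : List (Dir d) → Vtx d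
  | [] => x
  | f :: w => endpt (x + vec f) w

/-- `1` when the step `f` from `x` uses an edge of `E`, else `0`. -/
def hit (E : Finset (Sym2 (Vtx d))) (x : Vtx d) (f : Dir d) : ℕ :=
  if s(x, x + vec f) ∈ E then 1 else 0

theorem hit_of_mem {E : Finset (Sym2 (Vtx d))} {x : Vtx d} {f : Dir d}
    (h : s(x, x + vec f) ∈ E) : hit E x f = 1 := if_pos h

theorem hit_of_notMem {E : Finset (Sym2 (Vtx d))} {x : Vtx d} {f : Dir d}
    (h : s(x, x + vec f) ∉ E) : hit E x f = 0 := if_neg h

/-- The number of steps whose edge lies in `E`. -/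
def cnt (E : Finset (Sym2 (Vtx d))) (x : Vtx d) : List (Dir d) → ℕ
  | [] => 0
  | f :: w => hit E x f + cnt E (x + vec f) w

theorem start_mem_verts (x : Vtx d) (w : List (Dir d)) : x ∈ verts x w := by
  cases w <;> simp [verts]

theorem length_verts (x : Vtx d) (w : List (Dir d)) : (verts x w).length = w.length + 1 := by
  induction w generalizing x with
  | nil => simp [verts]
  | cons f w ih => simp [verts, ih]

theorem mem_edges {x a b : Vtx d} {w : List (Dir d)} (h : s(a, b) ∈ edges x w) :
    a ∈ verts x w ∧ b ∈ verts x w := by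
  induction w generalizing x with
  | nil => simp [edges] at h
  | cons f w ih =>
    simp only [edges, List.mem_cons] at h
    simp only [verts, List.mem_cons]
    rcases h with h | h
    · rw [Sym2.eq_iff] at h
      rcases h with ⟨rfl, rfl⟩ | ⟨rfl, rfl⟩
      · exact ⟨Or.inl rfl, Or.inr (start_mem_verts _ _)⟩
      · exact ⟨Or.inr (start_mem_verts _ _), Or.inl rfl⟩
    · have := ih h
      exact ⟨Or.inr this.1, Or.inr this.2⟩

theorem dirsAt_singleton_card_le (e : Sym2 (Vtx d)) (y : Vtx d) :
    (dirsAt {e} y).card ≤ 1 := by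
  rw [Finset.card_le_one]
  intro f hf g hg
  rw [mem_dirsAt, Finset.mem_singleton] at hf hg
  rw [← hg, Sym2.eq_iff] at hf
  rcases hf with ⟨_, h⟩ | ⟨h1, h2⟩
  · exact vec_injective (add_left_cancel h)
  · exfalso
    exact vec_ne_zero f (by simpa using h2)

theorem dirsAt_insert (e : Sym2 (Vtx d)) (E : Finset (Sym2 (Vtx d))) (y : Vtx d) :
    dirsAt (insert e E) y = dirsAt {e} y ∪ dirsAt E y := by
  rw [← dirsAt_union]; rfl

theorem dirsAt_edges_eq_empty {x y : Vtx d} {w : List (Dir d)} (hy : y ∉ verts x w) :
    dirsAt (edges x w).toFinset y = ∅ := by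
  rw [Finset.eq_empty_iff_forall_notMem]
  intro f hf
  rw [mem_dirsAt, List.mem_toFinset] at hf
  exact hy (mem_edges hf).1

theorem dirsAt_card_le_aux {x : Vtx d} {w : List (Dir d)} (hw : (verts x w).Nodup) :
    (dirsAt (edges x w).toFinset x).card ≤ 1 ∧
    ∀ y, (dirsAt (edges x w).toFinset y).card ≤ 2 := by
  induction w generalizing x with
  | nil =>
    constructor
    · simp [edges, dirsAt]
    · intro y; simp [edges, dirsAt]
  | cons f w ih =>
    simp only [verts, List.nodup_cons] at hw
    obtain ⟨hx, hw⟩ := hw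
    obtain ⟨ih1, ih2⟩ := ih hw
    have hins : (edges x (f :: w)).toFinset
        = insert s(x, x + vec f) (edges (x + vec f) w).toFinset := by
      simp [edges]
    rw [hins]
    have hxe : (dirsAt (insert s(x, x + vec f) (edges (x + vec f) w).toFinset) x).card ≤ 1 := by
      rw [dirsAt_insert, dirsAt_edges_eq_empty hx, Finset.union_empty]
      exact dirsAt_singleton_card_le _ _
    refine ⟨hxe, fun y => ?_⟩
    by_cases hyx : y = x
    · subst hyx; exact hxe.trans (by norm_num)
    by_cases hyf : y = x + vec f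
    · subst hyf
      rw [dirsAt_insert]
      refine (Finset.card_union_le _ _).trans ?_
      have := dirsAt_singleton_card_le s(x, x + vec f) (x + vec f)
      omega
    · rw [dirsAt_insert]
      have : dirsAt {s(x, x + vec f)} y = ∅ := by
        rw [Finset.eq_empty_iff_forall_notMem]
        intro g hg
        rw [mem_dirsAt, Finset.mem_singleton, Sym2.eq_iff] at hg
        rcases hg with ⟨h, _⟩ | ⟨h, _⟩
        · exact hyx h
        · exact hyf h
      rw [this, Finset.empty_union]
      exact ih2 y

theorem dirsAt_card_le {x : Vtx d} {w : List (Dir d)} (hw : (verts x w).Nodup) (y : Vtx d) :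
    (dirsAt (edges x w).toFinset y).card ≤ 2 := (dirsAt_card_le_aux hw).2 y

theorem reachable_of_mem_Open {x : Vtx d} {w : List (Dir d)} {ω : Vtx d → Finset (Dir d)}
    (hω : ω ∈ Open (edges x w).toFinset) {y : Vtx d} (hy : y ∈ verts x w) :
    (graph ω).Reachable x y := by
  induction w generalizing x with
  | nil => simp [verts] at hy; subst hy; exact SimpleGraph.Reachable.refl _
  | cons f w ih =>
    simp only [verts, List.mem_cons] at hy
    rcases hy with rfl | hy
    · exact SimpleGraph.Reachable.refl _
    · have h1 : (graph ω).Adj x (x + vec f) := adj_of_mem_Open hω (by simp [edges])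
      refine h1.reachable.trans (ih ?_ hy)
      intro z g hg
      apply hω z
      rw [mem_dirsAt] at hg ⊢
      simp only [edges, List.toFinset_cons, Finset.mem_insert]
      exact Or.inr hg

theorem card_inter_le_cnt (E : Finset (Sym2 (Vtx d))) (x : Vtx d) (w : List (Dir d)) :
    (E ∩ (edges x w).toFinset).card ≤ cnt E x w := by
  induction w generalizing x with
  | nil => simp [edges, cnt]
  | cons f w ih =>
    simp only [edges, List.toFinset_cons, cnt]
    by_cases h : s(x, x + vec f) ∈ E
    · rw [Finset.inter_insert_of_mem h, hit_of_mem h]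
      refine (Finset.card_insert_le _ _).trans ?_
      have := ih (x + vec f)
      omega
    · rw [Finset.inter_insert_of_notMem h, hit_of_notMem h]
      have := ih (x + vec f)
      omega

theorem theta_pos_of_family {k : ℕ} (h2 : 2 ≤ k) (hk : k ≤ 2 * d) (hd : 2 ≤ d)
    (K : ℝ) (hK : 0 < K)
    (H : ∀ n : ℕ, ∃ I : Finset (List (Dir d)), I.Nonempty ∧
      (∀ w ∈ I, n ≤ w.length ∧ (verts 0 w).Nodup) ∧
      ∀ w ∈ I, ∑ w' ∈ I, cost d k ^ cnt (edges 0 w).toFinset 0 w' ≤ K * I.card) :
    0 < theta d k hk := by
  classical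
  choose I hIne hI1 hI2 using H
  set μ := law d k hk with hμ
  set F : ℕ → Set (Vtx d → Finset (Dir d)) := fun n => ⋃ w ∈ I n, Open (edges 0 w).toFinset
    with hF
  have hFm : ∀ n, MeasurableSet (F n) := fun n =>
    Finset.measurableSet_biUnion _ fun i _ => measurableSet_Open _
  have hFp : ∀ n, 1 / K ≤ μ.real (F n) := by
    intro n
    apply second_moment h2 hk hd (I n) (hIne n) (fun w => (edges 0 w).toFinset)
      (fun w hw => dirsAt_card_le (hI1 n w hw).2) K hK
    intro w hw
    refine le_trans (Finset.sum_le_sum fun w' _ => ?_) (hI2 n w hw)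
    exact pow_le_pow_right₀ (one_le_cost h2 hk) (card_inter_le_cnt _ _ _)
  set G : ℕ → Set (Vtx d → Finset (Dir d)) := fun n => ⋃ m, ⋃ _ : n ≤ m, F m with hG
  have hGm : ∀ n, MeasurableSet (G n) := fun n =>
    MeasurableSet.iUnion fun m => MeasurableSet.iUnion fun _ => hFm m
  have hGanti : Antitone G := by
    intro a b hab ω hω
    simp only [hG, Set.mem_iUnion, exists_prop] at hω ⊢
    obtain ⟨m, hm, h⟩ := hω
    exact ⟨m, hab.trans hm, h⟩
  have hFG : ∀ n, F n ⊆ G n := by
    intro n ω hω
    simp only [hG, Set.mem_iUnion, exists_prop]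
    exact ⟨n, le_refl _, hω⟩
  have hsub : (⋂ n, G n) ⊆ {ω | {y : Vtx d | (graph ω).Reachable 0 y}.Infinite} := by
    intro ω hω
    change {y : Vtx d | (graph ω).Reachable 0 y}.Infinite
    intro hfin
    have h1 := Set.mem_iInter.1 hω (hfin.toFinset.card)
    simp only [hG, hF, Set.mem_iUnion, exists_prop] at h1
    obtain ⟨m, hm, w, hw, hop⟩ := h1
    obtain ⟨hlen, hnd⟩ := hI1 m w hw
    have h3 : (verts 0 w).toFinset ⊆ hfin.toFinset := by
      intro y hy
      rw [Set.Finite.mem_toFinset]
      exact reachable_of_mem_Open hop (List.mem_toFinset.1 hy)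
    have h4 := Finset.card_le_card h3
    rw [List.toFinset_card_of_nodup hnd, length_verts] at h4
    omega
  have htend : Tendsto (μ ∘ G) atTop (nhds (μ (⋂ n, G n))) :=
    tendsto_measure_iInter_atTop (fun n => (hGm n).nullMeasurableSet) hGanti
      ⟨0, measure_ne_top _ _⟩
  have hle : ENNReal.ofReal (1 / K) ≤ μ (⋂ n, G n) := by
    apply ge_of_tendsto' htend
    intro n
    refine le_trans ?_ (measure_mono (hFG n))
    rw [ENNReal.ofReal_le_iff_le_toReal (measure_ne_top _ _)]
    exact hFp n
  have : 0 < μ (⋂ n, G n) := lt_of_lt_of_le (by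
    rw [ENNReal.ofReal_pos]; positivity) hle
  exact lt_of_lt_of_le this (measure_mono hsub)

end KBnG
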