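import Pool.Agent.Helper5.KBnG.Walk

/-! The layered words. -/

open Finset

namespace KBnG

variable {d : ℕ}

/-! ### Concatenation -/

theorem endpt_mem_verts (x : Vtx d) (w : List (Dir d)) : endpt x w ∈ verts x w := by
  induction w generalizing x with
  | nil => simp [endpt, verts]
  | cons f w ih => simp only [endpt, verts, List.mem_cons]; exact Or.inr (ih _)

theorem verts_append_cons (x : Vtx d) (σ : List (Dir d)) (f : Dir d) (w : List (Dir d)) :
    verts x (σ ++ f :: w) = verts x σ ++ verts (endpt x σ + vec f) w := by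
  induction σ generalizing x with
  | nil => simp [verts, endpt]
  | cons g σ ih => simp [verts, endpt, ih]

theorem edges_append_cons (x : Vtx d) (σ : List (Dir d)) (f : Dir d) (w : List (Dir d)) :
    edges x (σ ++ f :: w) = edges x σ ++ s(endpt x σ, endpt x σ + vec f) ::
      edges (endpt x σ + vec f) w := by
  induction σ generalizing x with
  | nil => simp [edges, endpt]
  | cons g σ ih => simp [edges, endpt, ih]

theorem cnt_append_cons (E : Finset (Sym2 (Vtx d))) (x : Vtx d) (σ : List (Dir d)) (f : Dir d)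
    (w : List (Dir d)) :
    cnt E x (σ ++ f :: w) = cnt E x σ + hit E (endpt x σ) f
      + cnt E (endpt x σ + vec f) w := by
  induction σ generalizing x with
  | nil => simp [cnt, endpt]
  | cons g σ ih => simp only [List.cons_append, cnt, endpt, ih]; omega

/-! ### Words inside a layer -/

/-- Words of length `j` with steps in pairwise distinct coordinates of `M \ F`. -/
def mainWords (M : Finset (Fin d)) : ℕ → Finset (Fin d) → Finset (List (Dir d))
  | 0, _ => {[]}
  | j + 1, F => ((((M \ F) ×ˢ (univ : Finset Bool)).sigma fun f => mainWords M j (insert f.1 F)).image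
      fun p => p.1 :: p.2)

theorem sum_mainWords_succ {R : Type*} [AddCommMonoid R] (M : Finset (Fin d)) (j : ℕ) (F : Finset (Fin d))
    (φ : List (Dir d) → R) :
    ∑ w ∈ mainWords M (j + 1) F, φ w
      = ∑ f ∈ (M \ F) ×ˢ (univ : Finset Bool), ∑ w ∈ mainWords M j (insert f.1 F), φ (f :: w) := by
  rw [mainWords, Finset.sum_image, Finset.sum_sigma]
  rintro ⟨f, w⟩ _ ⟨g, v⟩ _ h
  simp only [List.cons.injEq] at h
  obtain ⟨rfl, rfl⟩ := h
  rfl

theorem mem_mainWords_succ {M : Finset (Fin d)} {j : ℕ} {F : Finset (Fin d)} {w : List (Dir d)} :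
    w ∈ mainWords M (j + 1) F ↔ ∃ f : Dir d, f.1 ∈ M \ F ∧
      ∃ v ∈ mainWords M j (insert f.1 F), w = f :: v := by
  simp only [mainWords, Finset.mem_image, Finset.mem_sigma, Finset.mem_product, Finset.mem_univ,
    and_true]
  constructor
  · rintro ⟨⟨f, v⟩, ⟨h1, h2⟩, rfl⟩; exact ⟨f, h1, v, h2, rfl⟩
  · rintro ⟨f, h1, v, h2, rfl⟩; exact ⟨⟨f, v⟩, ⟨h1, h2⟩, rfl⟩

theorem length_of_mem_mainWords {M : Finset (Fin d)} {j : ℕ} {F : Finset (Fin d)}
    {w : List (Dir d)} (hw : w ∈ mainWords M j F) : w.length = j := by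
  induction j generalizing F w with
  | zero => simp [mainWords] at hw; simp [hw]
  | succ j ih =>
    obtain ⟨f, -, v, hv, rfl⟩ := mem_mainWords_succ.1 hw
    simp [ih hv]

theorem add_vec_apply_of_ne (x : Vtx d) {f : Dir d} {i : Fin d} (h : i ≠ f.1) :
    (x + vec f) i = x i := by simp [vec, h]

theorem add_vec_apply_ne (x : Vtx d) (f : Dir d) : (x + vec f) f.1 ≠ x f.1 := by
  cases hf : f.2 <;> simp [vec, hf]

theorem coord_of_mem_verts {M : Finset (Fin d)} {j : ℕ} {F : Finset (Fin d)}
    {w : List (Dir d)} (hw : w ∈ mainWords M j F) {x v : Vtx d} (hv : v ∈ verts x w)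
    {i : Fin d} (hi : i ∉ M \ F) : v i = x i := by
  induction j generalizing F w x with
  | zero => simp [mainWords] at hw; subst hw; simp [verts] at hv; rw [hv]
  | succ j ih =>
    obtain ⟨f, hf, u, hu, rfl⟩ := mem_mainWords_succ.1 hw
    simp only [verts, List.mem_cons] at hv
    rcases hv with rfl | hv
    · rfl
    · have hne : i ≠ f.1 := by rintro rfl; exact hi hf
      rw [ih hu hv, add_vec_apply_of_ne x hne]
      simp only [Finset.mem_sdiff, Finset.mem_insert, not_and, not_not] at hi ⊢
      intro h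
      exact Or.inr (hi h)

theorem nodup_mainWords {M : Finset (Fin d)} {j : ℕ} {F : Finset (Fin d)}
    {w : List (Dir d)} (hw : w ∈ mainWords M j F) (x : Vtx d) : (verts x w).Nodup := by
  induction j generalizing F w x with
  | zero => simp [mainWords] at hw; subst hw; simp [verts]
  | succ j ih =>
    obtain ⟨f, hf, u, hu, rfl⟩ := mem_mainWords_succ.1 hw
    simp only [verts, List.nodup_cons]
    refine ⟨fun h => ?_, ih hu _⟩
    have := coord_of_mem_verts hu h (i := f.1) (by simp)
    exact add_vec_apply_ne x f this.symm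

/-! ### Layered words -/

/-- Words of `n` layers: `L` steps in distinct coordinates of `M`, then one positive step in a
coordinate of `S`. -/
def words (M S : Finset (Fin d)) (L : ℕ) : ℕ → Finset (List (Dir d))
  | 0 => {[]}
  | n + 1 => ((mainWords M L ∅ ×ˢ S) ×ˢ words M S L n).image
      fun p => p.1.1 ++ (p.1.2, true) :: p.2

theorem sum_words_succ {R : Type*} [AddCommMonoid R] (M S : Finset (Fin d)) (L n : ℕ)
    (φ : List (Dir d) → R) :
    ∑ w ∈ words M S L (n + 1), φ w
      = ∑ σ ∈ mainWords M L ∅, ∑ a ∈ S, ∑ w ∈ words M S L n, φ (σ ++ (a, true) :: w) := by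
  rw [words, Finset.sum_image, Finset.sum_product, Finset.sum_product]
  rintro ⟨⟨σ, a⟩, w⟩ h1 ⟨⟨τ, b⟩, v⟩ h2 h
  simp only [Finset.coe_product, Set.mem_prod, Finset.mem_coe] at h1 h2
  have hl : σ.length = τ.length := by
    rw [length_of_mem_mainWords h1.1.1, length_of_mem_mainWords h2.1.1]
  obtain ⟨h3, h4⟩ := List.append_inj h hl
  simp only [List.cons.injEq, Prod.mk.injEq, and_true] at h4
  simp only at h3
  obtain ⟨rfl, rfl⟩ := h4
  subst h3
  rfl

theorem mem_words_succ {M S : Finset (Fin d)} {L n : ℕ} {w : List (Dir d)} :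
    w ∈ words M S L (n + 1) ↔ ∃ σ ∈ mainWords M L ∅, ∃ a ∈ S, ∃ v ∈ words M S L n,
      w = σ ++ (a, true) :: v := by
  simp only [words, Finset.mem_image, Finset.mem_product]
  constructor
  · rintro ⟨⟨⟨σ, a⟩, v⟩, ⟨⟨h1, h2⟩, h3⟩, rfl⟩; exact ⟨σ, h1, a, h2, v, h3, rfl⟩
  · rintro ⟨σ, h1, a, h2, v, h3, rfl⟩; exact ⟨⟨⟨σ, a⟩, v⟩, ⟨⟨h1, h2⟩, h3⟩, rfl⟩

/-- The level: sum of the coordinates in `S`. -/
def lvl (S : Finset (Fin d)) (x : Vtx d) : ℤ := ∑ i ∈ S, x i

theorem lvl_congr {S : Finset (Fin d)} {x y : Vtx d} (h : ∀ i ∈ S, x i = y i) :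
    lvl S x = lvl S y := Finset.sum_congr rfl h

theorem lvl_add_vec {S : Finset (Fin d)} (x : Vtx d) {a : Fin d} (ha : a ∈ S) :
    lvl S (x + vec (a, true)) = lvl S x + 1 := by
  unfold lvl
  simp only [Pi.add_apply, Finset.sum_add_distrib, vec, if_true]
  congr 1
  simp [Pi.single_apply, ha]

variable {M S : Finset (Fin d)} {L : ℕ}

theorem spec_of_mem_verts (hMS : Disjoint M S) {j : ℕ} {F : Finset (Fin d)}
    {w : List (Dir d)} (hw : w ∈ mainWords M j F) {x v : Vtx d} (hv : v ∈ verts x w) :
    ∀ i ∈ S, v i = x i := by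
  intro i hi
  apply coord_of_mem_verts hw hv
  intro h
  exact Finset.disjoint_left.1 hMS (Finset.mem_sdiff.1 h).1 hi

theorem lvl_of_mem_verts (hMS : Disjoint M S) {j : ℕ} {F : Finset (Fin d)}
    {w : List (Dir d)} (hw : w ∈ mainWords M j F) {x v : Vtx d} (hv : v ∈ verts x w) :
    lvl S v = lvl S x := lvl_congr (spec_of_mem_verts hMS hw hv)

theorem lvl_le_of_mem_words (hMS : Disjoint M S) {n : ℕ}
    {w : List (Dir d)} (hw : w ∈ words M S L n) {x v : Vtx d} (hv : v ∈ verts x w) :
    lvl S x ≤ lvl S v := by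
  induction n generalizing w x with
  | zero => simp [words] at hw; subst hw; simp [verts] at hv; rw [hv]
  | succ n ih =>
    obtain ⟨σ, hσ, a, ha, u, hu, rfl⟩ := mem_words_succ.1 hw
    rw [verts_append_cons, List.mem_append] at hv
    rcases hv with hv | hv
    · rw [lvl_of_mem_verts hMS hσ hv]
    · have h1 := ih hu hv
      rw [lvl_add_vec _ ha, lvl_of_mem_verts hMS hσ (endpt_mem_verts x σ)] at h1
      omega

theorem nodup_words (hMS : Disjoint M S) {n : ℕ}
    {w : List (Dir d)} (hw : w ∈ words M S L n) (x : Vtx d) : (verts x w).Nodup := by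
  induction n generalizing w x with
  | zero => simp [words] at hw; subst hw; simp [verts]
  | succ n ih =>
    obtain ⟨σ, hσ, a, ha, u, hu, rfl⟩ := mem_words_succ.1 hw
    rw [verts_append_cons, List.nodup_append']
    refine ⟨nodup_mainWords hσ x, ih hu _, ?_⟩
    intro v hv1 hv2
    have h1 := lvl_of_mem_verts hMS hσ hv1
    have h2 := lvl_le_of_mem_words hMS hu hv2
    rw [lvl_add_vec _ ha, lvl_of_mem_verts hMS hσ (endpt_mem_verts x σ)] at h2
    omega

theorem length_words {n : ℕ} {w : List (Dir d)} (hw : w ∈ words M S L n) : n ≤ w.length := by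
  induction n generalizing w with
  | zero => simp
  | succ n ih =>
    obtain ⟨σ, hσ, a, ha, u, hu, rfl⟩ := mem_words_succ.1 hw
    have := ih hu
    simp only [List.length_append, List.length_cons]
    omega

theorem layer_card (hMS : Disjoint M S) {n : ℕ}
    {w : List (Dir d)} (hw : w ∈ words M S L n) (x : Vtx d) (ℓ : ℤ) :
    ((verts x w).filter fun v => decide (lvl S v = ℓ)).length ≤ L + 1 := by
  induction n generalizing w x with
  | zero =>
    simp [words] at hw; subst hw
    refine (List.length_filter_le _ _).trans ?_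
    simp [verts]
  | succ n ih =>
    obtain ⟨σ, hσ, a, ha, u, hu, rfl⟩ := mem_words_succ.1 hw
    rw [verts_append_cons, List.filter_append, List.length_append]
    by_cases hℓ : lvl S x = ℓ
    · have h1 : ((verts (endpt x σ + vec (a, true)) u).filter
          fun v => decide (lvl S v = ℓ)) = [] := by
        rw [List.filter_eq_nil_iff]
        intro v hv
        have h2 := lvl_le_of_mem_words hMS hu hv
        rw [lvl_add_vec _ ha, lvl_of_mem_verts hMS hσ (endpt_mem_verts x σ)] at h2
        simp only [decide_eq_true_eq]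
        omega
      rw [h1, List.length_nil, add_zero]
      refine (List.length_filter_le _ _).trans ?_
      rw [length_verts, length_of_mem_mainWords hσ]
    · have h1 : ((verts x σ).filter fun v => decide (lvl S v = ℓ)) = [] := by
        rw [List.filter_eq_nil_iff]
        intro v hv
        rw [lvl_of_mem_verts hMS hσ hv]
        simpa using hℓ
      rw [h1, List.length_nil, zero_add]
      exact ih hu _

theorem spec_words (hMS : Disjoint M S) {n : ℕ}
    {w : List (Dir d)} (hw : w ∈ words M S L n) (x : Vtx d) {v v' : Vtx d}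
    (hv : v ∈ verts x w) (hv' : v' ∈ verts x w) (h : lvl S v = lvl S v') :
    ∀ i ∈ S, v i = v' i := by
  induction n generalizing w x with
  | zero =>
    simp [words] at hw; subst hw
    simp [verts] at hv hv'
    rw [hv, hv']; intro i _; rfl
  | succ n ih =>
    obtain ⟨σ, hσ, a, ha, u, hu, rfl⟩ := mem_words_succ.1 hw
    rw [verts_append_cons, List.mem_append] at hv hv'
    have key : ∀ z ∈ verts (endpt x σ + vec (a, true)) u, lvl S x + 1 ≤ lvl S z := by
      intro z hz
      have h2 := lvl_le_of_mem_words hMS hu hz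
      rw [lvl_add_vec _ ha, lvl_of_mem_verts hMS hσ (endpt_mem_verts x σ)] at h2
      exact h2
    rcases hv with hv | hv <;> rcases hv' with hv' | hv'
    · intro i hi
      rw [spec_of_mem_verts hMS hσ hv i hi, spec_of_mem_verts hMS hσ hv' i hi]
    · exfalso
      have := key _ hv'
      rw [lvl_of_mem_verts hMS hσ hv] at h
      omega
    · exfalso
      have := key _ hv
      rw [lvl_of_mem_verts hMS hσ hv'] at h
      omega
    · exact ih hu _ hv hv'

theorem up_words (hMS : Disjoint M S) {n : ℕ}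
    {w : List (Dir d)} (hw : w ∈ words M S L n) (x : Vtx d) (ℓ : ℤ) :
    ∃ p : Vtx d × Option (Fin d), ∀ u, lvl S u = ℓ → ∀ a ∈ S,
      s(u, u + vec (a, true)) ∈ edges x w → u = p.1 ∧ some a = p.2 := by
  induction n generalizing w x with
  | zero =>
    simp [words] at hw; subst hw
    exact ⟨(0, none), fun u _ a _ h => by simp [edges] at h⟩
  | succ n ih =>
    obtain ⟨σ, hσ, a, ha, u, hu, rfl⟩ := mem_words_succ.1 hw
    have key : ∀ z ∈ verts (endpt x σ + vec (a, true)) u, lvl S x + 1 ≤ lvl S z := by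
      intro z hz
      have h2 := lvl_le_of_mem_words hMS hu hz
      rw [lvl_add_vec _ ha, lvl_of_mem_verts hMS hσ (endpt_mem_verts x σ)] at h2
      exact h2
    have hσ' : ∀ z b, b ∈ S → s(z, z + vec (b, true)) ∉ edges x σ := by
      intro z b hb h
      obtain ⟨h1, h2⟩ := mem_edges h
      have h3 := lvl_of_mem_verts hMS hσ h1
      have h4 := lvl_of_mem_verts hMS hσ h2
      rw [lvl_add_vec _ hb] at h4
      omega
    have hmid : ∀ z b, b ∈ S → s(z, z + vec (b, true))
        = s(endpt x σ, endpt x σ + vec (a, true)) → z = endpt x σ ∧ b = a := by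
      intro z b hb h
      rw [Sym2.eq_iff] at h
      rcases h with ⟨h1, h2⟩ | ⟨h1, h2⟩
      · subst h1
        have := vec_injective (add_left_cancel h2)
        simp only [Prod.mk.injEq, and_true] at this
        exact ⟨rfl, this⟩
      · exfalso
        have h3 := congrArg (lvl S) h1
        have h4 := congrArg (lvl S) h2
        rw [lvl_add_vec _ ha] at h3
        rw [lvl_add_vec _ hb] at h4
        omega
    by_cases hℓ : lvl S x = ℓ
    · refine ⟨(endpt x σ, some a), fun z hz b hb h => ?_⟩
      rw [edges_append_cons, List.mem_append, List.mem_cons] at h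
      rcases h with h | h | h
      · exact absurd h (hσ' z b hb)
      · obtain ⟨h1, h2⟩ := hmid z b hb h
        exact ⟨h1, by rw [h2]⟩
      · exfalso
        have := key _ (mem_edges h).1
        omega
    · obtain ⟨p, hp⟩ := ih hu (endpt x σ + vec (a, true))
      refine ⟨p, fun z hz b hb h => ?_⟩
      rw [edges_append_cons, List.mem_append, List.mem_cons] at h
      rcases h with h | h | h
      · exact absurd h (hσ' z b hb)
      · exfalso
        obtain ⟨h1, -⟩ := hmid z b hb h
        rw [h1, lvl_of_mem_verts hMS hσ (endpt_mem_verts x σ)] at hz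
        exact hℓ hz
      · exact hp z hz b hb h

/-- The environment created by a layered path. -/
structure Env (S : Finset (Fin d)) (L : ℕ) (E : Finset (Sym2 (Vtx d))) (V : Finset (Vtx d)) :
    Prop where
  touch : ∀ u f, s(u, u + vec f) ∈ E → u ∈ V
  deg : ∀ u, (dirsAt E u).card ≤ 2
  lay : ∀ ℓ : ℤ, (V.filter fun v => lvl S v = ℓ).card ≤ L + 1
  up : ∀ ℓ : ℤ, ∃ p : Vtx d × Option (Fin d), ∀ u, lvl S u = ℓ → ∀ a ∈ S,
      s(u, u + vec (a, true)) ∈ E → u = p.1 ∧ some a = p.2
  spec : ∀ v ∈ V, ∀ v' ∈ V, lvl S v = lvl S v' → ∀ i ∈ S, v i = v' i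

theorem env_words (hMS : Disjoint M S) {n : ℕ} {w : List (Dir d)} (hw : w ∈ words M S L n)
    (x : Vtx d) : Env S L (edges x w).toFinset (verts x w).toFinset where
  touch u f h := List.mem_toFinset.2 (mem_edges (List.mem_toFinset.1 h)).1
  deg u := dirsAt_card_le (nodup_words hMS hw x) u
  lay ℓ := by
    refine le_trans ?_ (layer_card hMS hw x ℓ)
    refine le_trans (Finset.card_le_card ?_) (List.toFinset_card_le _)
    intro v hv
    rw [Finset.mem_filter, List.mem_toFinset] at hv
    rw [List.mem_toFinset, List.mem_filter]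
    exact ⟨hv.1, by simpa using hv.2⟩
  up ℓ := by
    obtain ⟨p, hp⟩ := up_words hMS hw x ℓ
    exact ⟨p, fun u hu a ha h => hp u hu a ha (List.mem_toFinset.1 h)⟩
  spec v hv v' hv' h := spec_words hMS hw x (List.mem_toFinset.1 hv) (List.mem_toFinset.1 hv') h

end KBnG
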